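import Mathlib

set_option autoImplicit false

/-! A valuation ring `O'` in which `p` is a unit, an ideal `I` of elements with `1 + x O' ⊆ T`, and
the localisation at this prime ideal. -/

namespace Pool.Agent.V7H79.EW

/-- the elements `x` with `1 + x O' ⊆ T` -/
def II {F : Type} [Field F] (T : Subgroup Fˣ) (O' : ValuationSubring F) : Set F :=
  {x | ∀ z ∈ O', ∃ t ∈ T, ((t : Fˣ) : F) = 1 + x * z}

/-- the assumptions on `p` -/
structure Dt {F : Type} [Field F] (p : ℕ) (T : Subgroup Fˣ) (O' : ValuationSubring F) :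
    Prop where
  pos : 1 ≤ p
  p0 : (p : F) ≠ 0
  pT : ∀ z : Fˣ, z ^ p ∈ T
  pO : (p : F)⁻¹ ∈ O'

section

variable {F : Type} [Field F] {p : ℕ} {T : Subgroup Fˣ} {O' : ValuationSubring F}

lemma ii_zero : (0 : F) ∈ II T O' := fun z _ => ⟨1, one_mem T, by simp⟩

lemma ii_mul {x z : F} (hx : x ∈ II T O') (hz : z ∈ O') : x * z ∈ II T O' := by
  intro z' hz'
  obtain ⟨t, ht, e⟩ := hx (z * z') (mul_mem hz hz')
  exact ⟨t, ht, by rw [e, mul_assoc]⟩

lemma ii_lt {x : F} (hx : x ∈ II T O') : O'.valuation x < 1 := by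
  by_contra hc
  push Not at hc
  have h0 : x ≠ 0 := by
    rintro rfl
    rw [map_zero] at hc
    exact not_lt_zero (lt_of_lt_of_le zero_lt_one hc)
  have h1 : x⁻¹ ∈ O' := by
    rw [← ValuationSubring.valuation_le_one_iff, map_inv₀]
    exact inv_le_one_of_one_le₀ hc
  obtain ⟨t, -, e⟩ := hx (-x⁻¹) (neg_mem h1)
  rw [mul_neg, mul_inv_cancel₀ h0, add_neg_cancel] at e
  exact t.ne_zero e

lemma ii_mem {x : F} (hx : x ∈ II T O') : x ∈ O' := by
  rw [← ValuationSubring.valuation_le_one_iff]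
  exact (ii_lt hx).le

lemma ii_one : (1 : F) ∉ II T O' := by
  intro h
  have := ii_lt h
  rw [map_one] at this
  exact lt_irrefl _ this

lemma ii_neg {x : F} (hx : x ∈ II T O') : -x ∈ II T O' := by
  have := ii_mul hx (neg_mem (one_mem O'))
  rwa [mul_neg, mul_one] at this

lemma div_mem' {x y : F} (h : O'.valuation x ≤ O'.valuation y) : x / y ∈ O' := by
  rw [← ValuationSubring.valuation_le_one_iff, map_div₀]
  exact div_le_one_of_le₀ h zero_le

lemma ii_add {x y : F} (hx : x ∈ II T O') (hy : y ∈ II T O') : x + y ∈ II T O' := by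
  have key : ∀ x y : F, y ∈ II T O' → O'.valuation x ≤ O'.valuation y → x + y ∈ II T O' := by
    intro x y hy h
    by_cases h0 : y = 0
    · rw [h0, map_zero, le_zero_iff, map_eq_zero] at h
      rw [h, h0, add_zero]
      exact ii_zero
    · have h1 := ii_mul hy (add_mem (div_mem' h) (one_mem O'))
      have h2 : y * (x / y + 1) = x + y := by field_simp
      rwa [h2] at h1
  rcases le_total (O'.valuation x) (O'.valuation y) with h | h
  · exact key x y hy h
  · rw [add_comm]
    exact key y x hx h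

lemma binom {a : F} (ha : a ∈ O') (n : ℕ) :
    ∃ k ∈ O', (1 + a) ^ n = 1 + n * a + a * a * k := by
  induction n with
  | zero => exact ⟨0, zero_mem _, by simp⟩
  | succ n ih =>
    obtain ⟨k, hk, e⟩ := ih
    refine ⟨n + k + a * k, add_mem (add_mem (natCast_mem O' n) hk) (mul_mem ha hk), ?_⟩
    rw [pow_succ, e]
    push_cast
    ring

/-- halving -/
lemma ii_sq (h : Dt p T O') {x : F} (hxx : x * x ∈ II T O') : x ∈ II T O' := by
  have hxv : O'.valuation x < 1 := by
    have h1 := ii_lt hxx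
    rw [map_mul] at h1
    by_contra hc
    push Not at hc
    exact absurd h1 (not_lt.2 (one_le_mul hc hc))
  intro z hz
  obtain ⟨a, ha⟩ : ∃ a : F, a = x * z * (p : F)⁻¹ := ⟨_, rfl⟩
  have hzv : O'.valuation z ≤ 1 := (ValuationSubring.valuation_le_one_iff _ _).2 hz
  have hpv : O'.valuation (p : F)⁻¹ ≤ 1 := (ValuationSubring.valuation_le_one_iff _ _).2 h.pO
  have hav : O'.valuation a < 1 := by
    rw [ha, map_mul, map_mul]
    exact mul_lt_one_of_lt_of_le (mul_lt_one_of_lt_of_le hxv hzv) hpv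
  have haO : a ∈ O' := by
    rw [← ValuationSubring.valuation_le_one_iff]
    exact hav.le
  obtain ⟨k, hk, e⟩ := binom haO p
  have h1v : O'.valuation (1 + a) = 1 := Valuation.map_one_add_of_lt _ hav
  have h10 : (1 : F) + a ≠ 0 := by
    intro h0
    rw [h0, map_zero] at h1v
    exact zero_ne_one h1v
  obtain ⟨w, hw⟩ : ∃ w : Fˣ, (w : F) = 1 + a := ⟨Units.mk0 _ h10, rfl⟩
  have hwi : (w : F)⁻¹ ∈ O' := by
    rw [← ValuationSubring.valuation_le_one_iff, map_inv₀, hw, h1v, inv_one]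
  obtain ⟨t, ht, et⟩ := hxx (-(z * z * (k * (p : F)⁻¹ * (p : F)⁻¹) * ((w : F)⁻¹) ^ p))
    (neg_mem (mul_mem (mul_mem (mul_mem hz hz) (mul_mem (mul_mem hk h.pO) h.pO))
      (pow_mem hwi p)))
  refine ⟨w ^ p * t, mul_mem (h.pT w) ht, ?_⟩
  rw [Units.val_mul, et, Units.val_pow_eq_pow_val, mul_add, mul_one]
  have h2 : (w : F) ^ p * (x * x * -(z * z * (k * (p : F)⁻¹ * (p : F)⁻¹) * ((w : F)⁻¹) ^ p)) =
      -(x * x * (z * z * (k * (p : F)⁻¹ * (p : F)⁻¹))) * ((w : F) ^ p * ((w : F)⁻¹) ^ p) := by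
    ring
  rw [h2, ← mul_pow, mul_inv_cancel₀ w.ne_zero, one_pow, mul_one, hw, e]
  have h3 : (p : F) * a = x * z := by
    rw [ha]
    have := h.p0
    field_simp
  rw [h3, ha]
  ring

/-- the ideal is prime -/
lemma ii_prime (h : Dt p T O') {x y : F} (hxy : x * y ∈ II T O') :
    x ∈ II T O' ∨ y ∈ II T O' := by
  have key : ∀ x y : F, x * y ∈ II T O' → O'.valuation x ≤ O'.valuation y →
      x ∈ II T O' := by
    intro x y hxy hle
    by_cases h0 : y = 0
    · rw [h0, map_zero, le_zero_iff, map_eq_zero] at hle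
      rw [hle]
      exact ii_zero
    · refine ii_sq h ?_
      have h1 := ii_mul hxy (div_mem' hle)
      have h2 : x * y * (x / y) = x * x := by field_simp
      rwa [h2] at h1
  rcases le_total (O'.valuation x) (O'.valuation y) with h1 | h1
  · exact Or.inl (key x y hxy h1)
  · exact Or.inr (key y x (by rwa [mul_comm]) h1)

lemma ii_pow (h : Dt p T O') {x : F} (n : ℕ) (hn : x ^ n ∈ II T O') :
    x ∈ II T O' := by
  induction n with
  | zero => rw [pow_zero] at hn; exact absurd hn ii_one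
  | succ n ih =>
    rw [pow_succ] at hn
    rcases ii_prime h hn with h1 | h1
    · exact ih h1
    · exact h1

lemma ii_inv {x : F} (hx : x ∈ II T O') (h0 : x ≠ 0) : x⁻¹ ∉ O' := by
  intro h1
  have h2 := ii_lt hx
  rw [← ValuationSubring.valuation_le_one_iff, map_inv₀] at h1
  have h3 : O'.valuation x ≠ 0 := by rwa [Ne, map_eq_zero]
  have h4 := (one_le_inv₀ (zero_lt_iff.2 h3)).2 h2.le
  have h5 := le_antisymm h1 h4
  rw [inv_eq_one] at h5
  exact absurd h2 (by rw [h5]; exact lt_irrefl _)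

/-- elements of the localisation -/
def C2 {F : Type} [Field F] (T : Subgroup Fˣ) (O' : ValuationSubring F) : Set F :=
  {z | z = 0 ∨ z⁻¹ ∉ II T O'}

lemma c2_of {z : F} (hz : z ∈ O') : z ∈ C2 T O' := by
  by_cases h0 : z = 0
  · exact Or.inl h0
  · right
    intro h1
    refine ii_inv h1 (inv_ne_zero h0) ?_
    rwa [inv_inv]

lemma c2_mul (h : Dt p T O') {z z' : F} (hz : z ∈ C2 T O') (hz' : z' ∈ C2 T O') :
    z * z' ∈ C2 T O' := by
  rcases hz with rfl | hz
  · left; rw [zero_mul]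
  rcases hz' with rfl | hz'
  · left; rw [mul_zero]
  right
  rw [mul_inv]
  intro h1
  rcases ii_prime h h1 with h2 | h2
  · exact hz h2
  · exact hz' h2

lemma c2_add (h : Dt p T O') {z z' : F} (hz : z ∈ C2 T O') (hz' : z' ∈ C2 T O') :
    z + z' ∈ C2 T O' := by
  have key : ∀ z z' : F, z' ∈ C2 T O' → O'.valuation z ≤ O'.valuation z' →
      z + z' ∈ C2 T O' := by
    intro z z' hz' hle
    by_cases h0 : z' = 0
    · rw [h0, map_zero, le_zero_iff, map_eq_zero] at hle
      rw [hle, h0, add_zero]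
      exact Or.inl rfl
    · have h1 := c2_mul h hz' (c2_of (T := T) (add_mem (div_mem' hle) (one_mem O')))
      have h2 : z' * (z / z' + 1) = z + z' := by field_simp
      rwa [h2] at h1
  rcases le_total (O'.valuation z) (O'.valuation z') with h1 | h1
  · exact key z z' hz' h1
  · rw [add_comm]
    exact key z' z hz h1

/-- the localisation -/
def OI {F : Type} [Field F] {p : ℕ} {T : Subgroup Fˣ} {O' : ValuationSubring F}
    (h : Dt p T O') : ValuationSubring F where
  carrier := C2 T O'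
  zero_mem' := Or.inl rfl
  one_mem' := c2_of (one_mem O')
  add_mem' := fun hz hz' => c2_add h hz hz'
  mul_mem' := fun hz hz' => c2_mul h hz hz'
  neg_mem' := by
    intro z hz
    have := c2_mul h (c2_of (T := T) (neg_mem (one_mem O'))) hz
    rwa [neg_one_mul] at this
  mem_or_inv_mem' := by
    intro z
    rcases O'.mem_or_inv_mem z with h1 | h1
    · exact Or.inl (c2_of h1)
    · exact Or.inr (c2_of h1)

lemma mem_oi (h : Dt p T O') {z : F} : z ∈ OI h ↔ z = 0 ∨ z⁻¹ ∉ II T O' := Iff.rfl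

lemma oi_non (h : Dt p T O') {z : F} (hz : z⁻¹ ∉ OI h) : z ∈ II T O' := by
  by_contra hc
  apply hz
  right
  rwa [inv_inv]

lemma oi_le (h : Dt p T O') {O : ValuationSubring F} (hOO : O' ≤ O)
    (hO : ∀ y : F, y ∈ O → y⁻¹ ∉ O → ∃ t ∈ T, ((t : Fˣ) : F) = 1 + y) : OI h ≤ O := by
  intro z hz
  by_contra hzO
  rcases hz with rfl | hz
  · exact hzO (zero_mem O)
  apply hz
  intro y hy
  by_cases h0 : y = 0
  · exact ⟨1, one_mem T, by rw [h0]; simp⟩
  refine hO _ (mul_mem ((O.mem_or_inv_mem z).resolve_left hzO) (hOO hy)) ?_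
  intro h1
  apply hzO
  have h2 := mul_mem h1 (hOO hy)
  rwa [mul_inv, inv_inv, inv_mul_cancel_right₀ h0] at h2

lemma ii_mul_oi (h : Dt p T O') {x z : F} (hx : x ∈ II T O') (hz : z ∈ OI h) :
    x * z ∈ II T O' := by
  by_cases h0 : z = 0
  · rw [h0, mul_zero]; exact ii_zero
  by_cases hzO : z ∈ O'
  · exact ii_mul hx hzO
  have hzi : z⁻¹ ∈ O' := (O'.mem_or_inv_mem z).resolve_left hzO
  have h1 : x * z * z⁻¹ ∈ II T O' := by rwa [mul_inv_cancel_right₀ h0]
  rcases ii_prime h h1 with h2 | h2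
  · exact h2
  · exact absurd h2 (hz.resolve_left h0)

end

end Pool.Agent.V7H79.EW
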