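import Mathlib
import Pool.Agent.V7H42.ET.Ord

set_option autoImplicit false

/-! The valuation ring of a rigid class `b` with `b² ≠ 1`. -/

namespace Pool.Agent.V7H79.EW

open Pool.Agent.Y920.EP
open Pool.Agent.V7H42.ET (Sm XX sm_mul sm_or sm_excl sum2 xx_inv)

/-- the class `b` is rigid, and `b²` is not trivial -/
structure Rg {F : Type} [Field F] {A : Type} [CommGroup A] (φ : Fˣ →* A) (b : A) : Prop where
  neg : φ (-1) = 1
  h1 : b ∉ XX φ
  ne2 : b * b ≠ 1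

/-- `y P ⊆ P` for the set `P` of the small elements of the class `b` -/
def Lb {F : Type} [Field F] {A : Type} [CommGroup A] (φ : Fˣ →* A) (b : A) (y : Fˣ) : Prop :=
  ∀ w : Fˣ, φ w = b → Sm φ w → Sm φ (y * w)

/-- the additive group generated by the small elements of the class `b` -/
def Jb {F : Type} [Field F] {A : Type} [CommGroup A] (φ : Fˣ →* A) (b : A) : AddSubgroup F :=
  AddSubgroup.closure {x | ∃ w : Fˣ, φ w = b ∧ Sm φ w ∧ (w : F) = x}

/-- the multipliers of this group -/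
def Rb {F : Type} [Field F] {A : Type} [CommGroup A] (φ : Fˣ →* A) (b : A) : Subring F where
  carrier := {z | ∀ j ∈ Jb φ b, z * j ∈ Jb φ b}
  one_mem' := fun j hj => by rwa [one_mul]
  mul_mem' := fun {x y} hx hy j hj => by rw [mul_assoc]; exact hx _ (hy j hj)
  zero_mem' := fun j _ => by rw [zero_mul]; exact zero_mem _
  add_mem' := fun {x y} hx hy j hj => by rw [add_mul]; exact add_mem (hx j hj) (hy j hj)
  neg_mem' := fun {x} hx j hj => by rw [neg_mul]; exact neg_mem (hx j hj)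

section

variable {F : Type} [Field F] {A : Type} [CommGroup A] {φ : Fˣ →* A} {b : A}

lemma Rg.inv (h : Rg φ b) : Rg φ b⁻¹ :=
  ⟨h.neg, fun h1 => h.h1 ((xx_inv h.neg).1 h1), fun h1 => h.ne2 (by
    rw [← mul_inv] at h1
    exact inv_eq_one.1 h1)⟩

lemma Rg.ne (h : Rg φ b) : b ≠ 1 := fun e => h.h1 (Or.inl e)

lemma sm_mk {g z : Fˣ} (hz : (z : F) = 1 + g) (h1 : φ z = 1) : Sm φ g :=
  ⟨z, by rw [hz, Units.val_one], by rw [h1, map_one]⟩

lemma sm_get {g : Fˣ} (h : Sm φ g) : ∃ z : Fˣ, (z : F) = 1 + g ∧ φ z = 1 := by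
  obtain ⟨z, hz, e⟩ := h
  exact ⟨z, by rw [hz, Units.val_one], by rw [e, map_one]⟩

/-- if `1 > e > y` then `1 - y` is in the trivial class -/
lemma star (h : Rg φ b) {e y : Fˣ} (he : φ e = b) (hy : φ y = 1) (s1 : Sm φ e)
    (s2 : Sm φ (y * e⁻¹)) : Sm φ (-y) := by
  obtain ⟨z1, hz1, e1⟩ := sm_get s1
  obtain ⟨z2, hz2, e2⟩ := sm_get s2
  have he0 : (e : F) ≠ 0 := e.ne_zero
  obtain ⟨S1, hS1, c1⟩ := sum2 h.neg (x := z1) (y := -(e * z2)) (by
    rw [phi_neg h.neg, map_mul, e1, e2, he, mul_one, one_div, xx_inv h.neg]; exact h.h1)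
  obtain ⟨S2, hS2, c2⟩ := sum2 h.neg (x := z2) (y := -(y * e⁻¹ * z1)) (by
    rw [phi_neg h.neg, map_mul, map_mul, map_inv, e1, e2, he, hy, mul_one, one_mul, one_div,
      inv_inv]; exact h.h1)
  have hv1 : (S1 : F) = 1 + ((-y : Fˣ) : F) := by
    rw [hS1, hz1, Units.val_neg, Units.val_mul, hz2, Units.val_mul, Units.val_inv_eq_inv_val,
      Units.val_neg]
    field_simp
    ring
  have h12 : S2 = S1 := by
    apply Units.ext
    rw [hv1, hS2, hz2, Units.val_neg, Units.val_mul (y * e⁻¹) z1, hz1, Units.val_mul,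
      Units.val_inv_eq_inv_val, Units.val_neg]
    field_simp
    ring
  refine sm_mk hv1 ?_
  rw [phi_neg h.neg, map_mul, he, e2, mul_one] at c1
  rw [h12, phi_neg h.neg, map_mul, map_mul, map_inv, he, hy, e1, e2, mul_one, one_mul] at c2
  rcases c1 with c1 | c1
  · rw [c1, e1]
  · rcases c2 with c2 | c2
    · exact c2
    · exfalso
      apply h.ne2
      rw [c1] at c2
      rw [mul_eq_one_iff_eq_inv]
      exact c2

/-- `1 + w` has the class of `1` and `1 - w` has the class of `w` -/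
def Qc {F : Type} [Field F] {A : Type} [CommGroup A] (φ : Fˣ →* A) (b : A) (w : Fˣ) : Prop :=
  φ w = b ∧ Sm φ w ∧ Sm φ (-w⁻¹)

lemma q_two (h : Rg φ b) {w : Fˣ} (hw : Qc φ b w) : Sm φ 1 := by
  have h1 := star h (e := w) (y := -1) hw.1 h.neg hw.2.1 (by
    rw [neg_one_mul]; exact hw.2.2)
  rwa [neg_neg] at h1

lemma q_add (h : Rg φ b) {w w' : Fˣ} (hw : Qc φ b w) (hw' : Qc φ b w') :
    Sm φ (w' * w⁻¹) := by
  have h1 := star h.inv (e := -w⁻¹) (y := -(w' * w⁻¹)) (by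
    rw [phi_neg h.neg, map_inv, hw.1]) (by
    rw [phi_neg h.neg, map_mul, map_inv, hw.1, hw'.1, mul_inv_cancel]) hw.2.2 (by
    have e : -(w' * w⁻¹) * (-w⁻¹)⁻¹ = w' := by
      rw [inv_neg, inv_inv, neg_mul_neg, inv_mul_cancel_right]
    rw [e]
    exact hw'.2.1)
  rwa [neg_neg] at h1

lemma q_sub (h : Rg φ b) {w β : Fˣ} (hw : Qc φ b w) (hβ : (β : F) = 1 - w) :
    φ β = b ∧ Sm φ β⁻¹ := by
  have hw0 : (w : F) ≠ 0 := w.ne_zero
  have hφβ : φ β = b := by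
    obtain ⟨z, hz, e⟩ := sm_get hw.2.2
    have h1 : β = -w * z := by
      apply Units.ext
      rw [hβ, Units.val_mul, hz, Units.val_neg, Units.val_neg, Units.val_inv_eq_inv_val]
      field_simp
      ring
    rw [h1, map_mul, e, mul_one, phi_neg h.neg, hw.1]
  refine ⟨hφβ, ?_⟩
  have hβ0 : (β : F) ≠ 0 := β.ne_zero
  rcases sm_or h.neg (g := β) (by rw [hφβ]; exact h.h1) with h1 | h1
  · exfalso
    have h2 : Qc φ b β := by
      refine ⟨hφβ, h1, sm_mk (z := -(w * β⁻¹)) ?_ ?_⟩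
      · rw [Units.val_neg, Units.val_mul, Units.val_neg, Units.val_inv_eq_inv_val]
        field_simp
        rw [hβ]
        ring
      · rw [phi_neg h.neg, map_mul, map_inv, hφβ, hw.1, mul_inv_cancel]
    obtain ⟨z, hz, e⟩ := sm_get (q_add h hw h2)
    have h3 : z = w⁻¹ := by
      apply Units.ext
      rw [hz, Units.val_mul, hβ, Units.val_inv_eq_inv_val]
      field_simp
      ring
    rw [h3, map_inv, hw.1] at e
    exact h.ne (inv_eq_one.1 e)
  · exact h1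

lemma q_false (h : Rg φ b) {w : Fˣ} (hw : Qc φ b w) : False := by
  have hw0 : (w : F) ≠ 0 := w.ne_zero
  obtain ⟨d, hd, ed⟩ := sm_get (q_two h hw)
  rw [Units.val_one] at hd
  obtain ⟨τ, hτ, eτ⟩ := sm_get hw.2.1
  have hβ0 : (1 : F) - w ≠ 0 := by
    obtain ⟨z, hz, e⟩ := sm_get hw.2.2
    intro h0
    apply z.ne_zero
    rw [hz, Units.val_neg, Units.val_inv_eq_inv_val]
    field_simp
    linear_combination (-1 : F) * h0
  obtain ⟨β, hβ⟩ : ∃ β : Fˣ, (β : F) = 1 - w := ⟨Units.mk0 _ hβ0, rfl⟩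
  obtain ⟨hφβ, sβ⟩ := q_sub h hw hβ
  have hτ0 : (τ : F) ≠ 0 := τ.ne_zero
  have hβ0' : (β : F) ≠ 0 := β.ne_zero
  have hd0 : (d : F) ≠ 0 := d.ne_zero
  -- `w₁ = (1 - w)/(1 + w)`
  have hw1 : Qc φ b (β * τ⁻¹) := by
    refine ⟨by rw [map_mul, map_inv, hφβ, eτ, inv_one, mul_one], sm_mk (z := d * τ⁻¹) ?_ ?_,
      sm_mk (z := -(d * w * β⁻¹)) ?_ ?_⟩
    · rw [Units.val_mul, Units.val_mul, Units.val_inv_eq_inv_val, hd]
      field_simp
      rw [hτ, hβ]
      ring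
    · rw [map_mul, map_inv, ed, eτ, inv_one, mul_one]
    · rw [Units.val_neg, Units.val_mul, Units.val_mul, Units.val_neg, mul_inv, inv_inv,
        Units.val_mul, Units.val_inv_eq_inv_val, hd]
      field_simp
      rw [hτ, hβ]
      ring
    · rw [phi_neg h.neg, map_mul, map_mul, map_inv, ed, hφβ, hw.1, one_mul, mul_inv_cancel]
  obtain ⟨-, s3⟩ := q_sub h hw1 (β := d * w * τ⁻¹) (by
    rw [Units.val_mul, Units.val_mul, Units.val_mul, Units.val_inv_eq_inv_val, hd]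
    field_simp
    rw [hτ, hβ]
    ring)
  obtain ⟨z3, hz3, e3⟩ := sm_get s3
  -- `-1/w` for the inverse class
  have hu : Qc φ b⁻¹ (-w⁻¹) := by
    refine ⟨by rw [phi_neg h.neg, map_inv, hw.1], hw.2.2, ?_⟩
    rw [inv_neg, inv_inv, neg_neg]
    exact hw.2.1
  obtain ⟨-, s4⟩ := q_sub h.inv hu (β := τ * w⁻¹) (by
    rw [Units.val_mul, Units.val_neg, Units.val_inv_eq_inv_val]
    field_simp
    rw [hτ]
    ring)
  rw [mul_inv, inv_inv, mul_comm] at s4
  obtain ⟨z4, hz4, e4⟩ := sm_get s4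
  rw [Units.val_mul, Units.val_inv_eq_inv_val] at hz4
  rw [mul_inv, mul_inv, inv_inv, Units.val_mul, Units.val_mul, Units.val_inv_eq_inv_val,
    Units.val_inv_eq_inv_val, hd] at hz3
  -- the chain `1 + w > w > 1 + 2 w`
  have h20 : (1 : F) + 1 ≠ 0 := by rw [← hd]; exact hd0
  have h5 := star h (e := w * τ⁻¹) (y := z4) (by
    rw [map_mul, map_inv, eτ, inv_one, mul_one, hw.1]) e4 s4 (sm_mk (z := d * z3) (by
    rw [Units.val_mul, hd, hz3, Units.val_mul, hz4, mul_inv, inv_inv, Units.val_mul,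
      Units.val_inv_eq_inv_val]
    field_simp
    rw [hτ]
    ring) (by rw [map_mul, ed, e3, mul_one]))
  obtain ⟨z5, hz5, e5⟩ := sm_get h5
  have h6 : z5 = -(w * τ⁻¹) := by
    apply Units.ext
    rw [hz5, Units.val_neg, hz4, Units.val_neg, Units.val_mul, Units.val_inv_eq_inv_val]
    ring
  rw [h6, phi_neg h.neg, map_mul, map_inv, eτ, inv_one, mul_one, hw.1] at e5
  exact h.ne e5

lemma neg_small (h : Rg φ b) {w : Fˣ} (hw : φ w = b) (sw : Sm φ w) : Sm φ (-w) := by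
  have hnw : φ (-w) = b := by rw [phi_neg h.neg, hw]
  rcases sm_or h.neg (g := -w) (by rw [hnw]; exact h.h1) with h1 | h1
  · exact h1
  · exact (q_false h ⟨hw, sw, by rwa [inv_neg] at h1⟩).elim

/-- the elements of the trivial class are linearly ordered -/
lemma lin (h : Rg φ b) {y : Fˣ} (hy : φ y = 1) : Lb φ b y ∨ Lb φ b y⁻¹ := by
  by_contra hc
  rw [not_or] at hc
  obtain ⟨h1, h2⟩ := hc
  rw [Lb] at h1 h2
  push Not at h1 h2
  obtain ⟨w, hw, sw, nw⟩ := h1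
  obtain ⟨v, hv, sv, nv⟩ := h2
  have e1 : φ (y * w) = b := by rw [map_mul, hy, one_mul, hw]
  have e2 : φ (y⁻¹ * v) = b := by rw [map_mul, map_inv, hy, inv_one, one_mul, hv]
  have s1 : Sm φ (y * w)⁻¹ := (sm_or h.neg (by rw [e1]; exact h.h1)).resolve_left nw
  have s2 : Sm φ (y⁻¹ * v)⁻¹ := (sm_or h.neg (by rw [e2]; exact h.h1)).resolve_left nv
  have hy0 : (y : F) ≠ 0 := y.ne_zero
  have hw0 : (w : F) ≠ 0 := w.ne_zero
  have hv0 : (v : F) ≠ 0 := v.ne_zero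
  -- `1 - y⁻¹`
  obtain ⟨A0, hA0, eA0⟩ := sm_get (star h (e := w) (y := y⁻¹) hw (by rw [map_inv, hy, inv_one])
    sw (by rwa [mul_inv] at s1))
  -- `1 - y⁻¹ v / w`
  obtain ⟨B0, hB0, eB0⟩ := sm_get (star h.inv (e := (y * w)⁻¹) (y := y⁻¹ * v * w⁻¹)
    (by rw [map_inv, e1]) (by rw [map_mul, e2, map_inv, hw, mul_inv_cancel]) s1 (by
      have e : y⁻¹ * v * w⁻¹ * ((y * w)⁻¹)⁻¹ = v := by
        rw [inv_inv, mul_comm y w, ← mul_assoc, inv_mul_cancel_right, mul_comm, mul_inv_cancel_left]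
      rw [e]
      exact sv))
  obtain ⟨a0, ha0, ea0⟩ := sm_get (neg_small h hw sw)
  obtain ⟨z1, hz1, ez1⟩ := sm_get (neg_small h.inv (w := (y * w)⁻¹) (by rw [map_inv, e1]) s1)
  obtain ⟨z2, hz2, ez2⟩ := sm_get (neg_small h hv sv)
  obtain ⟨z3, hz3, ez3⟩ := sm_get (neg_small h.inv (w := (y⁻¹ * v)⁻¹) (by rw [map_inv, e2]) s2)
  rw [Units.val_neg, Units.val_inv_eq_inv_val] at hA0
  rw [Units.val_neg, Units.val_mul, Units.val_mul, Units.val_inv_eq_inv_val,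
    Units.val_inv_eq_inv_val] at hB0
  rw [Units.val_neg] at ha0 hz2
  rw [Units.val_neg, Units.val_inv_eq_inv_val, Units.val_mul] at hz1
  rw [Units.val_neg, Units.val_inv_eq_inv_val, Units.val_mul, Units.val_inv_eq_inv_val] at hz3
  obtain ⟨a1, rfl⟩ : ∃ a1 : Fˣ, w * z1 = a1 := ⟨_, rfl⟩
  obtain ⟨a1, ha1d⟩ : ∃ a1 : Fˣ, a1 = w * z1 := ⟨_, rfl⟩
  obtain ⟨a2, ha2d⟩ : ∃ a2 : Fˣ, a2 = y⁻¹ * z2 := ⟨_, rfl⟩
  obtain ⟨a3, ha3d⟩ : ∃ a3 : Fˣ, a3 = y⁻¹ * v * z3 := ⟨_, rfl⟩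
  have ha1 : (a1 : F) = w - (y : F)⁻¹ := by
    rw [ha1d, Units.val_mul, hz1]
    field_simp
    ring
  have ha2 : (a2 : F) = (y : F)⁻¹ - (y : F)⁻¹ * v := by
    rw [ha2d, Units.val_mul, hz2, Units.val_inv_eq_inv_val]
    ring
  have ha3 : (a3 : F) = (y : F)⁻¹ * v - 1 := by
    rw [ha3d, Units.val_mul, Units.val_mul, hz3, Units.val_inv_eq_inv_val]
    field_simp
    ring
  have ea1 : φ a1 = b := by rw [ha1d, map_mul, ez1, mul_one, hw]
  have ea2 : φ a2 = 1 := by rw [ha2d, map_mul, ez2, mul_one, map_inv, hy, inv_one]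
  have ea3 : φ a3 = b := by rw [ha3d, map_mul, ez3, mul_one, e2]
  have h00 : (a0 : F) ≠ 0 := a0.ne_zero
  have h10 : (a1 : F) ≠ 0 := a1.ne_zero
  have h20 : (a2 : F) ≠ 0 := a2.ne_zero
  have t01 : Sm φ (a1 * a0⁻¹) := by
    refine sm_mk (z := A0 * a0⁻¹) ?_ (by rw [map_mul, map_inv, eA0, ea0, inv_one, mul_one])
    rw [Units.val_mul, Units.val_mul, Units.val_inv_eq_inv_val, hA0, ha1]
    field_simp
    rw [ha0]
    field_simp
    ring
  have t12 : Sm φ (a2 * a1⁻¹) := by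
    refine sm_mk (z := w * B0 * a1⁻¹) ?_ (by
      rw [map_mul, map_mul, map_inv, eB0, hw, ea1, mul_one, mul_inv_cancel])
    rw [Units.val_mul, Units.val_mul, Units.val_mul, Units.val_inv_eq_inv_val, hB0, ha2,
      mul_inv_eq_iff_eq_mul₀ h10, add_mul, one_mul, inv_mul_cancel_right₀ h10, ha1]
    field_simp
    ring
  have t23 : Sm φ (a3 * a2⁻¹) := by
    refine sm_mk (z := -(A0 * a2⁻¹)) ?_ (by
      rw [phi_neg h.neg, map_mul, map_inv, eA0, ea2, inv_one, mul_one])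
    rw [Units.val_neg, Units.val_mul, Units.val_mul, Units.val_inv_eq_inv_val, ← neg_mul,
      mul_inv_eq_iff_eq_mul₀ h20, add_mul, one_mul, inv_mul_cancel_right₀ h20, ha3, ha2, hA0]
    ring
  obtain ⟨z5, hz5, ez5⟩ := sm_get (star h (e := a1 * a0⁻¹) (y := -(a2 * a0⁻¹)) (by
    rw [map_mul, map_inv, ea1, ea0, inv_one, mul_one]) (by
    rw [phi_neg h.neg, map_mul, map_inv, ea2, ea0, inv_one, mul_one]) t01 (by
    have e : -(a2 * a0⁻¹) * (a1 * a0⁻¹)⁻¹ = -(a2 * a1⁻¹) := by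
      rw [neg_mul, mul_inv, inv_inv, mul_mul_mul_comm, inv_mul_cancel, mul_one]
    rw [e]
    exact neg_small h.inv (by rw [map_mul, map_inv, ea1, ea2, one_mul]) t12))
  obtain ⟨z6, hz6, ez6⟩ := sm_get (star h.inv (e := a2 * a1⁻¹) (y := -(a3 * a1⁻¹)) (by
    rw [map_mul, map_inv, ea1, ea2, one_mul]) (by
    rw [phi_neg h.neg, map_mul, map_inv, ea3, ea1, mul_inv_cancel]) t12 (by
    have e : -(a3 * a1⁻¹) * (a2 * a1⁻¹)⁻¹ = -(a3 * a2⁻¹) := by
      rw [neg_mul, mul_inv, inv_inv, mul_mul_mul_comm, inv_mul_cancel, mul_one]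
    rw [e]
    exact neg_small h (by rw [map_mul, map_inv, ea3, ea2, inv_one, mul_one]) t23))
  have h7 : a0 * z5 = -(a1 * z6) := by
    apply Units.ext
    rw [Units.val_neg, Units.val_mul, Units.val_mul, hz5, hz6, neg_neg, neg_neg, Units.val_mul,
      Units.val_mul, Units.val_inv_eq_inv_val, Units.val_inv_eq_inv_val, mul_add, mul_add,
      mul_one, mul_one, mul_comm (a2 : F), mul_comm (a3 : F), mul_inv_cancel_left₀ h00,
      mul_inv_cancel_left₀ h10, ha0, ha1, ha2, ha3]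
    ring
  have h8 := congrArg φ h7
  rw [phi_neg h.neg, map_mul, map_mul, ez5, ez6, ea0, ea1, mul_one, mul_one] at h8
  exact h.ne h8.symm

lemma lb_inv_class' (h : Rg φ b) {y : Fˣ} (hy : φ y = 1) (h1 : Lb φ b⁻¹ y) : Lb φ b y := by
  intro w hw sw
  have e : φ (y * w) = b := by rw [map_mul, hy, one_mul, hw]
  rcases sm_or h.neg (g := y * w) (by rw [e]; exact h.h1) with h2 | h2
  · exact h2
  exfalso
  have h3 := h1 _ (by rw [map_inv, e]) h2
  have h4 : y * (y * w)⁻¹ = w⁻¹ := by rw [mul_inv, mul_inv_cancel_left]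
  rw [h4] at h3
  exact sm_excl (by rw [hw]; exact h.h1) sw h3

/-- `(1 + x) P ⊆ P` for small `x` of the inverse class -/
lemma one_add_inv (h : Rg φ b) {x s : Fˣ} (hx : φ x = b⁻¹) (sx : Sm φ x) (hs : (s : F) = 1 + x)
    (es : φ s = 1) : Lb φ b s := by
  intro w hw sw
  have e1 : φ (s * w) = b := by rw [map_mul, es, one_mul, hw]
  rcases sm_or h.neg (g := s * w) (by rw [e1]; exact h.h1) with h2 | h2
  · exact h2
  exfalso
  obtain ⟨z, hz, ez⟩ := sm_get h2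
  have hs0 : (s : F) ≠ 0 := s.ne_zero
  have hw0 : (w : F) ≠ 0 := w.ne_zero
  have hx0 : (x : F) ≠ 0 := x.ne_zero
  obtain ⟨β, hβd⟩ : ∃ β : Fˣ, β = s * w * z := ⟨_, rfl⟩
  have hβ : (β : F) = 1 + w + x * w := by
    rw [hβd, Units.val_mul, hz, Units.val_inv_eq_inv_val, Units.val_mul]
    field_simp
    rw [hs]
    ring
  have eβ : φ β = b := by rw [hβd, map_mul, e1, ez, mul_one]
  have hβ0 : (β : F) ≠ 0 := β.ne_zero
  obtain ⟨τ, hτ, eτ⟩ := sm_get sw
  have hxw : φ (x * w) = 1 := by rw [map_mul, hx, hw, inv_mul_cancel]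
  -- `β < y` for `y = x w`
  have h3 : Sm φ (β * (x * w)⁻¹) := by
    have h4 : Sm φ (-(β * (x * w)⁻¹)) := by
      refine sm_mk (z := -(τ * (x * w)⁻¹)) ?_ (by
        rw [phi_neg h.neg, map_mul, map_inv, hxw, eτ, inv_one, mul_one])
      rw [Units.val_neg, Units.val_mul, Units.val_neg, Units.val_mul, Units.val_inv_eq_inv_val,
        Units.val_mul, hτ, hβ]
      field_simp
      ring
    have h5 := neg_small h (by rw [phi_neg h.neg, map_mul, map_inv, hxw, inv_one, mul_one, eβ]) h4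
    rwa [neg_neg] at h5
  -- `β > 1`
  have h6 : Sm φ β⁻¹ := by
    have h4 : Sm φ (-β⁻¹) := by
      refine sm_mk (z := s * w * β⁻¹) ?_ (by rw [map_mul, map_inv, e1, eβ, mul_inv_cancel])
      rw [Units.val_mul, Units.val_mul, Units.val_neg, Units.val_inv_eq_inv_val, hs]
      field_simp
      rw [hβ]
      ring
    have h5 := neg_small h.inv (by rw [phi_neg h.neg, map_inv, eβ]) h4
    rwa [neg_neg] at h5
  have h7 : ¬ Sm φ β := fun h8 => sm_excl (by rw [eβ]; exact h.h1) h8 h6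
  rcases lin h hxw with h8 | h8
  · have h9 := h8 _ (by rw [map_mul, map_inv, hxw, inv_one, mul_one, eβ]) h3
    rw [mul_comm (x * w), inv_mul_cancel_right] at h9
    exact h7 h9
  · have h9 := h8 w hw sw
    rw [mul_inv, mul_assoc, inv_mul_cancel, mul_one] at h9
    exact sm_excl (by rw [hx]; exact h.inv.h1) sx h9

lemma one_add_aux (h : Rg φ b) {w v : Fˣ} (hw : φ w = b) (hv : (v : F) = 1 + w)
    (hv1 : φ v = 1) : Lb φ b v := by
  refine lb_inv_class' h hv1 ?_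
  have h1 := h.inv
  exact one_add_inv h.inv (x := w) (by rw [inv_inv]; exact hw) (sm_mk hv hv1) hv hv1

/-- `1 + w` for small `w` -/
lemma one_add (h : Rg φ b) {w : Fˣ} (hw : φ w = b) (sw : Sm φ w) :
    ∃ v : Fˣ, (v : F) = 1 + w ∧ φ v = 1 ∧ Lb φ b v ∧ Lb φ b v⁻¹ := by
  obtain ⟨v, hv, e⟩ := sm_get sw
  refine ⟨v, hv, e, one_add_aux h hw hv e, ?_⟩
  have h0 : (v : F) ≠ 0 := v.ne_zero
  have h1 : ((v⁻¹ : Fˣ) : F) = 1 + ((-w * v⁻¹ : Fˣ) : F) := by
    rw [Units.val_mul, Units.val_neg, Units.val_inv_eq_inv_val]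
    field_simp
    rw [hv]
    ring
  have e1 : φ v⁻¹ = 1 := by rw [map_inv, e, inv_one]
  exact one_add_aux h (w := -w * v⁻¹) (by rw [map_mul, phi_neg h.neg, e1, mul_one, hw]) h1 e1

/-- the units -/
def Ub {F : Type} [Field F] {A : Type} [CommGroup A] (φ : Fˣ →* A) (b : A) (y : Fˣ) : Prop :=
  φ y = 1 ∧ Lb φ b y ∧ Lb φ b y⁻¹

lemma lb_mul {y z : Fˣ} (hz1 : φ z = 1) (hy : Lb φ b y) (hz : Lb φ b z) :
    Lb φ b (y * z) := by
  intro w hw sw
  rw [mul_assoc]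
  exact hy _ (by rw [map_mul, hz1, one_mul, hw]) (hz w hw sw)

lemma ub_mul {y z : Fˣ} (hy : Ub φ b y) (hz : Ub φ b z) : Ub φ b (y * z) := by
  refine ⟨by rw [map_mul, hy.1, hz.1, one_mul], lb_mul hz.1 hy.2.1 hz.2.1, ?_⟩
  rw [mul_inv]
  exact lb_mul (by rw [map_inv, hz.1, inv_one]) hy.2.2 hz.2.2

lemma ub_neg (h : Rg φ b) {y : Fˣ} (hy : Ub φ b y) : Ub φ b (-y) := by
  have h1 : Ub φ b (-1) := by
    refine ⟨h.neg, fun w hw sw => ?_, fun w hw sw => ?_⟩
    · rw [neg_one_mul]; exact neg_small h hw sw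
    · rw [inv_neg, inv_one, neg_one_mul]; exact neg_small h hw sw
  have := ub_mul h1 hy
  rwa [neg_one_mul] at this

lemma ub_one : Ub φ b 1 :=
  ⟨map_one φ, fun w _ sw => by rwa [one_mul], fun w _ sw => by rwa [inv_one, one_mul]⟩

/-- `y + J` consists of units -/
lemma add_j (h : Rg φ b) {j : F} (hj : j ∈ Jb φ b) :
    ∀ y : Fˣ, Ub φ b y → ∃ y' : Fˣ, Ub φ b y' ∧ (y' : F) = y + j := by
  induction hj using AddSubgroup.closure_induction with
  | mem x hx =>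
    obtain ⟨w, hw, sw, rfl⟩ := hx
    intro y hy
    have e : φ (y⁻¹ * w) = b := by rw [map_mul, map_inv, hy.1, inv_one, one_mul, hw]
    obtain ⟨v, hv, e1, l1, l2⟩ := one_add h e (hy.2.2 w hw sw)
    refine ⟨y * v, ub_mul hy ⟨e1, l1, l2⟩, ?_⟩
    rw [Units.val_mul, hv, Units.val_mul, Units.val_inv_eq_inv_val]
    have : (y : F) ≠ 0 := y.ne_zero
    field_simp
  | zero => exact fun y hy => ⟨y, hy, by rw [add_zero]⟩
  | add x x' _ _ ih ih' =>
    intro y hy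
    obtain ⟨y', hy', e⟩ := ih y hy
    obtain ⟨y'', hy'', e'⟩ := ih' y' hy'
    exact ⟨y'', hy'', by rw [e', e, add_assoc]⟩
  | neg x _ ih =>
    intro y hy
    obtain ⟨y', hy', e⟩ := ih (-y) (ub_neg h hy)
    refine ⟨-y', ub_neg h hy', ?_⟩
    rw [Units.val_neg, e, Units.val_neg]
    ring

lemma small_mem_j {w : Fˣ} (hw : φ w = b) (sw : Sm φ w) : (w : F) ∈ Jb φ b :=
  AddSubgroup.subset_closure ⟨w, hw, sw, rfl⟩

lemma small_of_j (h : Rg φ b) {w : Fˣ} (hj : (w : F) ∈ Jb φ b) : Sm φ w := by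
  obtain ⟨y', hy', e⟩ := add_j h hj 1 ub_one
  exact ⟨y', e, by rw [map_one]; exact hy'.1⟩

lemma one_notMem (h : Rg φ b) : (1 : F) ∉ Jb φ b := by
  intro hj
  obtain ⟨y', -, e⟩ := add_j h (neg_mem hj) 1 ub_one
  rw [Units.val_one, add_neg_cancel] at e
  exact y'.ne_zero e

/-- the ring -/
lemma mem_R (h : Rg φ b) {y : Fˣ} (hy : φ y = 1) : (y : F) ∈ Rb φ b ↔ Lb φ b y := by
  constructor
  · intro h1 w hw sw
    have h2 := h1 _ (small_mem_j hw sw)
    rw [← Units.val_mul] at h2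
    exact small_of_j h h2
  · intro h1 j hj
    induction hj using AddSubgroup.closure_induction with
    | mem x hx =>
      obtain ⟨w, hw, sw, rfl⟩ := hx
      rw [← Units.val_mul]
      exact small_mem_j (by rw [map_mul, hy, one_mul, hw]) (h1 w hw sw)
    | zero => rw [mul_zero]; exact zero_mem _
    | add x x' _ _ ih ih' => rw [mul_add]; exact add_mem ih ih'
    | neg x _ ih => rw [mul_neg]; exact neg_mem ih

lemma small_mem_R (h : Rg φ b) {w : Fˣ} (hw : φ w = b) (sw : Sm φ w) : (w : F) ∈ Rb φ b := by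
  obtain ⟨v, hv, e1, l1, -⟩ := one_add h hw sw
  have h1 := sub_mem ((mem_R h e1).2 l1) (one_mem (Rb φ b))
  rwa [hv, add_sub_cancel_left] at h1

/-- an integral element whose inverse is in the ring -/
lemma mem_of_int {R : Subring F} {y : F} (h1 : IsIntegral R y) (h2 : y⁻¹ ∈ R) : y ∈ R := by
  by_cases h0 : y = 0
  · rw [h0]; exact zero_mem R
  obtain ⟨f, hf, e⟩ := h1
  have h3 : 0 < f.natDegree := by
    rcases Nat.eq_zero_or_pos f.natDegree with h4 | h4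
    · exfalso
      rw [Polynomial.eq_one_of_monic_natDegree_zero hf h4, Polynomial.eval₂_one] at e
      exact one_ne_zero e
    · exact h4
  rw [Polynomial.eval₂_eq_sum_range, Finset.sum_range_succ, hf.coeff_natDegree, map_one,
    one_mul] at e
  obtain ⟨n, hn⟩ : ∃ n, f.natDegree = n + 1 := ⟨f.natDegree - 1, by omega⟩
  rw [hn] at e
  have h4 : y = -∑ i ∈ Finset.range (n + 1), ((f.coeff i : R) : F) * (y⁻¹) ^ (n - i) := by
    have h5 : y ^ (n + 1) * (y⁻¹) ^ n = y := by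
      rw [pow_succ, mul_comm (y ^ n), mul_assoc, ← mul_pow, mul_inv_cancel₀ h0, one_pow, mul_one]
    have h6 : y ^ (n + 1) = -∑ i ∈ Finset.range (n + 1), ((f.coeff i : R) : F) * y ^ i := by
      rw [eq_neg_iff_add_eq_zero, add_comm]
      exact e
    rw [h6] at h5
    refine h5.symm.trans ?_
    rw [neg_mul, Finset.sum_mul]
    congr 1
    refine Finset.sum_congr rfl fun i hi => ?_
    rw [Finset.mem_range] at hi
    have h7 : (y⁻¹) ^ n = (y⁻¹) ^ i * (y⁻¹) ^ (n - i) := by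
      rw [← pow_add]
      congr 1
      omega
    rw [h7, mul_assoc, ← mul_assoc (y ^ i), ← mul_pow, mul_inv_cancel₀ h0, one_pow, one_mul]
  rw [h4]
  exact neg_mem (sum_mem fun i _ => mul_mem (f.coeff i).2 (pow_mem h2 _))

end

end Pool.Agent.V7H79.EW
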