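import Mathlib
import Pool.Agent.V7H79.EW.Val

set_option autoImplicit false

/-! The valuation ring of a class `b` such that `b` and `b²` are rigid, II: `p` is a unit. -/

namespace Pool.Agent.V7H79.EW

open Pool.Agent.Y920.EP
open Pool.Agent.V7H42.ET (Sm XX sm_mul sm_or sm_excl sum2 xx_inv)

section

variable {F : Type} [Field F] {A : Type} [CommGroup A] {φ : Fˣ →* A} {b : A} {p : ℕ}

/-- the valuation ring -/
def Ob (h : Rg φ b) (hp : 1 ≤ p) (hexp : ∀ a : A, a ^ p = 1) : ValuationSubring F where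
  toSubring := (integralClosure (Rb φ b) F).toSubring
  mem_or_inv_mem' := by
    intro x
    by_cases h0 : x = 0
    · left
      rw [h0]
      exact isIntegral_zero
    have e : φ ((Units.mk0 x h0) ^ p) = 1 := by rw [map_pow, hexp]
    have hp0 : 0 < p := hp
    rcases lin h e with h1 | h1
    · left
      have h2 : IsIntegral (Rb φ b) (x ^ p) := by
        have h3 := (mem_R h e).2 h1
        rw [Units.val_pow_eq_pow_val, Units.val_mk0] at h3
        exact isIntegral_algebraMap (R := Rb φ b) (A := F) (x := ⟨x ^ p, h3⟩)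
      exact IsIntegral.of_pow hp0 h2
    · right
      have h2 : IsIntegral (Rb φ b) ((x⁻¹) ^ p) := by
        have h3 := (mem_R h (by rw [map_inv, e, inv_one])).2 h1
        rw [Units.val_inv_eq_inv_val, Units.val_pow_eq_pow_val, Units.val_mk0, ← inv_pow] at h3
        exact isIntegral_algebraMap (R := Rb φ b) (A := F) (x := ⟨(x⁻¹) ^ p, h3⟩)
      exact IsIntegral.of_pow hp0 h2

variable (h : Rg φ b) (hp : 1 ≤ p) (hexp : ∀ a : A, a ^ p = 1)

lemma mem_ob {x : F} : x ∈ Ob h hp hexp ↔ IsIntegral (Rb φ b) x := Iff.rfl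

lemma r_le {x : F} (hx : x ∈ Rb φ b) : x ∈ Ob h hp hexp :=
  (mem_ob h hp hexp).2 (isIntegral_algebraMap (R := Rb φ b) (A := F) (x := ⟨x, hx⟩))

lemma mem_ob_T {y : Fˣ} (hy : φ y = 1) : (y : F) ∈ Ob h hp hexp ↔ Lb φ b y := by
  constructor
  · intro h1
    rcases lin h hy with h2 | h2
    · exact h2
    · have h3 := (mem_R h (by rw [map_inv, hy, inv_one])).2 h2
      rw [Units.val_inv_eq_inv_val] at h3
      exact (mem_R h hy).1 (mem_of_int ((mem_ob h hp hexp).1 h1) h3)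
  · intro h1
    exact r_le h hp hexp ((mem_R h hy).2 h1)

lemma mem_ob_pow {z : Fˣ} : (z : F) ∈ Ob h hp hexp ↔ Lb φ b (z ^ p) := by
  rw [← mem_ob_T h hp hexp (by rw [map_pow, hexp]), Units.val_pow_eq_pow_val]
  constructor
  · intro h1
    exact pow_mem h1 p
  · intro h1
    exact IsIntegral.of_pow (show 0 < p from hp) h1

lemma t_mem_R {y : Fˣ} (hy : φ y = 1) (h1 : (y : F) ∈ Ob h hp hexp) : (y : F) ∈ Rb φ b :=
  (mem_R h hy).2 ((mem_ob_T h hp hexp hy).1 h1)

lemma small_inv {w : Fˣ} (hw : φ w = b) (sw : Sm φ w) : (w : F)⁻¹ ∉ Ob h hp hexp := by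
  intro h1
  have h2 : ((w⁻¹ : Fˣ) : F) ∈ Ob h hp hexp := by rwa [Units.val_inv_eq_inv_val]
  have h3 : (((w⁻¹) ^ p : Fˣ) : F) ∈ Rb φ b := by
    refine t_mem_R h hp hexp (by rw [map_pow, hexp]) ?_
    rw [Units.val_pow_eq_pow_val]
    exact pow_mem h2 p
  have h4 : (w : F)⁻¹ ∈ Rb φ b := by
    have h5 := mul_mem (pow_mem (small_mem_R h hw sw) (p - 1)) h3
    have h6 : (w : F) ^ (p - 1) * (((w⁻¹) ^ p : Fˣ) : F) = (w : F)⁻¹ := by
      have h0 : (w : F) ≠ 0 := w.ne_zero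
      rw [Units.val_pow_eq_pow_val, Units.val_inv_eq_inv_val]
      obtain ⟨q, rfl⟩ := Nat.exists_eq_add_of_le hp
      rw [Nat.add_sub_cancel_left, add_comm 1 q, pow_succ, ← mul_assoc, ← mul_pow,
        mul_inv_cancel₀ h0, one_pow, one_mul]
    rwa [h6] at h5
  have h5 := h4 _ (small_mem_j hw sw)
  rw [inv_mul_cancel₀ w.ne_zero] at h5
  exact one_notMem h h5

omit hp hexp in
lemma lb_inv_class (h : Rg φ b) {y : Fˣ} (hy : φ y = 1) (h1 : Lb φ b⁻¹ y) : Lb φ b y := by
  intro w hw sw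
  have e : φ (y * w) = b := by rw [map_mul, hy, one_mul, hw]
  rcases sm_or h.neg (g := y * w) (by rw [e]; exact h.h1) with h2 | h2
  · exact h2
  exfalso
  have h3 := h1 _ (by rw [map_inv, e]) h2
  have h4 : y * (y * w)⁻¹ = w⁻¹ := by rw [mul_inv, mul_inv_cancel_left]
  rw [h4] at h3
  exact sm_excl (by rw [hw]; exact h.h1) sw h3

lemma ob_inv {z : Fˣ} : (z : F) ∈ Ob h.inv hp hexp ↔ (z : F) ∈ Ob h hp hexp := by
  rw [mem_ob_pow, mem_ob_pow]
  have e : φ (z ^ p) = 1 := by rw [map_pow, hexp]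
  constructor
  · exact lb_inv_class h e
  · intro h1
    have h2 := h.inv
    refine lb_inv_class h.inv e ?_
    rwa [inv_inv]

/-- the elements of the class `b` -/
lemma cls {w : Fˣ} (hw : φ w = b) : ((w : F) ∈ Ob h hp hexp ↔ Sm φ w) ∧
    ((w : F) ∈ Ob h hp hexp → (w : F)⁻¹ ∉ Ob h hp hexp) := by
  rcases sm_or h.neg (g := w) (by rw [hw]; exact h.h1) with h1 | h1
  · exact ⟨⟨fun _ => h1, fun _ => r_le h hp hexp (small_mem_R h hw h1)⟩,
      fun _ => small_inv h hp hexp hw h1⟩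
  · have h2 : (w : F) ∉ Ob h hp hexp := by
      rw [← ob_inv]
      have h3 := small_inv h.inv hp hexp (w := w⁻¹) (by rw [map_inv, hw]) h1
      rwa [Units.val_inv_eq_inv_val, inv_inv] at h3
    exact ⟨⟨fun h3 => absurd h3 h2, fun h3 => absurd h1 fun h4 =>
      sm_excl (by rw [hw]; exact h.h1) h3 h4⟩, fun h3 => absurd h3 h2⟩

lemma val_ne {w : Fˣ} (hw : φ w = b) : (Ob h hp hexp).valuation (w : F) ≠ 1 := by
  intro h1
  have h2 : (w : F) ∈ Ob h hp hexp := by
    rw [← ValuationSubring.valuation_le_one_iff]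
    exact le_of_eq h1
  refine (cls h hp hexp hw).2 h2 ?_
  rw [← ValuationSubring.valuation_le_one_iff, map_inv₀, h1, inv_one]

/-- `1 - η` is a unit -/
lemma lam_inv (hT : ∀ y : Fˣ, φ y = 1 → ∃ z : Fˣ, y = z ^ p) {η : F} (hη : IsPrimitiveRoot η p)
    (hp2 : 1 < p) : (1 - η)⁻¹ ∈ Ob h hp hexp := by
  have hη1 : (1 : F) - η ≠ 0 := sub_ne_zero.2 (hη.ne_one hp2).symm
  obtain ⟨l, hl⟩ : ∃ l : Fˣ, (l : F) = 1 - η := ⟨Units.mk0 _ hη1, rfl⟩
  set v := (Ob h hp hexp).valuation with hv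
  have hηv : v η ≤ 1 := by
    rw [hv, ValuationSubring.valuation_le_one_iff]
    refine IsIntegral.of_pow (show 0 < p from hp) ?_
    rw [hη.pow_eq_one]
    exact isIntegral_one
  have hgeo : ∀ i : ℕ, v (1 - η ^ i) ≤ v (l : F) := by
    intro i
    have e : 1 - η ^ i = (l : F) * ∑ j ∈ Finset.range i, η ^ j := by
      rw [hl, mul_comm]
      have := geom_sum_mul η i
      linear_combination this
    rw [e, map_mul]
    refine mul_le_of_le_one_right' ?_
    rw [hv, ValuationSubring.valuation_le_one_iff]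
    refine sum_mem fun j _ => pow_mem ?_ j
    rwa [← ValuationSubring.valuation_le_one_iff]
  have key : Lb φ b ((l⁻¹) ^ p) := by
    intro w hw sw
    have hlw : φ ((l⁻¹) ^ p * w) = b := by rw [map_mul, map_pow, hexp, one_mul, hw]
    obtain ⟨z', hz', e'⟩ := id sw
    rw [map_one] at e'
    rw [Units.val_one] at hz'
    obtain ⟨z, rfl⟩ := hT z' e'
    rw [Units.val_pow_eq_pow_val] at hz'
    have hprod : (w : F) = ∏ i ∈ Finset.range p, ((z : F) - η ^ i) := by
      have h1 := X_pow_sub_C_eq_prod hη (show 0 < p from hp) (one_pow p)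
      apply_fun Polynomial.eval (z : F) at h1
      simp only [mul_one, Polynomial.eval_prod, Polynomial.eval_sub, Polynomial.eval_X,
        Polynomial.eval_pow, Polynomial.eval_C, map_one, Polynomial.eval_one] at h1
      rw [← h1, hz']
      ring
    have hzi : ∀ i : ℕ, (z : F) - η ^ i = (z - 1) + (1 - η ^ i) := fun i => by ring
    rw [← (cls h hp hexp hlw).1, ← ValuationSubring.valuation_le_one_iff, Units.val_mul,
      Units.val_pow_eq_pow_val, Units.val_inv_eq_inv_val, map_mul, map_pow, map_inv₀]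
    have hl0 : v (l : F) ≠ 0 := by
      rw [Ne, map_eq_zero]; exact l.ne_zero
    rcases le_or_gt (v ((z : F) - 1)) (v (l : F)) with hcase | hcase
    · have h1 : v (w : F) ≤ v (l : F) ^ p := by
        rw [hprod, map_prod]
        refine (Finset.prod_le_prod' (g := fun _ => v (l : F)) fun i _ => ?_).trans ?_
        · rw [hzi]
          exact (v.map_add _ _).trans (max_le hcase (hgeo i))
        · rw [Finset.prod_const, Finset.card_range]
      rw [← hv]
      calc (v (l : F))⁻¹ ^ p * v (w : F) ≤ (v (l : F))⁻¹ ^ p * v (l : F) ^ p :=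
            mul_le_mul_right h1 _
        _ = 1 := by rw [← mul_pow, inv_mul_cancel₀ hl0, one_pow]
    · exfalso
      have h1 : v (w : F) = v ((z : F) - 1) ^ p := by
        rw [hprod, map_prod]
        have h2 : ∀ i ∈ Finset.range p, v ((z : F) - η ^ i) = v ((z : F) - 1) := by
          intro i _
          rw [hzi]
          exact Valuation.map_add_eq_of_lt_left v (lt_of_le_of_lt (hgeo i) hcase)
        rw [Finset.prod_congr rfl h2, Finset.prod_const, Finset.card_range]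
      have h0 : (z : F) - 1 ≠ 0 := by
        intro e
        rw [e, map_zero] at hcase
        exact not_lt_zero hcase
      obtain ⟨y, hy⟩ : ∃ y : Fˣ, (y : F) = z - 1 := ⟨Units.mk0 _ h0, rfl⟩
      refine val_ne h hp hexp (w := (y⁻¹) ^ p * w) (by
        rw [map_mul, map_pow, hexp, one_mul, hw]) ?_
      rw [Units.val_mul, Units.val_pow_eq_pow_val, Units.val_inv_eq_inv_val, map_mul, map_pow,
        map_inv₀, ← hv, h1, hy, ← mul_pow, inv_mul_cancel₀, one_pow]
      rw [Ne, map_eq_zero]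
      exact h0
  have h1 := (mem_ob_pow h hp hexp (z := l⁻¹)).2 key
  rwa [Units.val_inv_eq_inv_val, hl] at h1

/-- `p` is a unit -/
lemma p_inv (hT : ∀ y : Fˣ, φ y = 1 → ∃ z : Fˣ, y = z ^ p) (hpr : p.Prime) {ζ : F}
    (hζ : IsPrimitiveRoot ζ p) : (p : F)⁻¹ ∈ Ob h hp hexp := by
  obtain ⟨n, rfl⟩ : ∃ n, p = n + 1 := ⟨p - 1, by have := hpr.one_lt; omega⟩
  have h1 := hζ.prod_one_sub_pow_eq_order
  have h2 : (((n + 1 : ℕ) : F))⁻¹ = ∏ k ∈ Finset.range n, (1 - ζ ^ (k + 1))⁻¹ := by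
    rw [Finset.prod_inv_distrib, h1]
    push_cast
    rfl
  rw [h2]
  refine prod_mem fun k hk => ?_
  rw [Finset.mem_range] at hk
  refine lam_inv h hp hexp hT ?_ hpr.one_lt
  refine hζ.pow_of_coprime _ ?_
  rw [Nat.coprime_comm, Nat.Prime.coprime_iff_not_dvd hpr]
  intro h3
  have := Nat.le_of_dvd (Nat.succ_pos k) h3
  omega

end

section

variable {F : Type} [Field F] {A : Type} [CommGroup A] {φ : Fˣ →* A} {b : A} {p : ℕ}
  (h : Rg φ b) (hp : 1 ≤ p) (hexp : ∀ a : A, a ^ p = 1)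

lemma max_le_ob {O : ValuationSubring F}
    (hO : ∀ y : F, y ∈ O → y⁻¹ ∉ O → ∃ t : Fˣ, φ t = 1 ∧ (t : F) = 1 + y) {z : F} (hz : z ∈ O)
    (hz' : z⁻¹ ∉ O) : z ∈ Ob h hp hexp := by
  by_cases h0 : z = 0
  · rw [h0]; exact zero_mem _
  obtain ⟨z, rfl⟩ : ∃ y : Fˣ, (y : F) = z := ⟨Units.mk0 _ h0, rfl⟩
  rw [mem_ob_pow]
  intro w hw sw
  have hwO : (w : F) ∈ O := by
    by_contra hc
    have h1 : (w : F)⁻¹ ∈ O := (O.mem_or_inv_mem _).resolve_left hc
    obtain ⟨t, ht, e⟩ := hO _ h1 (by rwa [inv_inv])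
    exact sm_excl (by rw [hw]; exact h.h1) sw
      ⟨t, by rw [e, Units.val_one, Units.val_inv_eq_inv_val], by rw [ht, map_one]⟩
  have h1 : ((z ^ p * w : Fˣ) : F) ∈ O := by
    rw [Units.val_mul, Units.val_pow_eq_pow_val]
    exact mul_mem (pow_mem hz p) hwO
  have h2 : ((z ^ p * w : Fˣ) : F)⁻¹ ∉ O := by
    intro h3
    apply hz'
    have h4 := mul_mem (mul_mem h3 (pow_mem hz (p - 1))) hwO
    have h5 : ((z ^ p * w : Fˣ) : F)⁻¹ * (z : F) ^ (p - 1) * w = (z : F)⁻¹ := by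
      have h6 : (z : F) ≠ 0 := z.ne_zero
      have h7 : (w : F) ≠ 0 := w.ne_zero
      obtain ⟨q, rfl⟩ := Nat.exists_eq_add_of_le hp
      rw [Nat.add_sub_cancel_left, Units.val_mul, Units.val_pow_eq_pow_val, add_comm 1 q, pow_succ]
      field_simp
    rwa [h5] at h4
  obtain ⟨t, ht, e⟩ := hO _ h1 h2
  exact ⟨t, by rw [e, Units.val_one], by rw [ht, map_one]⟩

/-- the ring is contained in every compatible ring -/
lemma ob_le {O : ValuationSubring F}
    (hO : ∀ y : F, y ∈ O → y⁻¹ ∉ O → ∃ t : Fˣ, φ t = 1 ∧ (t : F) = 1 + y)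
    (hb : ∃ u ∈ O.unitGroup, φ u = b) : Ob h hp hexp ≤ O := by
  intro z hz
  by_contra hzO
  obtain ⟨u, hu, rfl⟩ := hb
  have hu1 : (u : F) ∈ O := by
    rw [← ValuationSubring.valuation_le_one_iff]
    exact le_of_eq hu
  have hu2 : (u : F)⁻¹ ∈ O := by
    have h1 := inv_mem hu
    rw [← ValuationSubring.valuation_le_one_iff, ← Units.val_inv_eq_inv_val]
    exact le_of_eq h1
  have hz0 : z ≠ 0 := by
    rintro rfl
    exact hzO (zero_mem O)
  have hzi : z⁻¹ ∈ O := (O.mem_or_inv_mem _).resolve_left hzO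
  have key : ∀ x : F, x ∈ O → x⁻¹ ∈ O → x ≠ 0 → x ∈ Ob h hp hexp := by
    intro x hx hx' hx0
    have h1 : x * z⁻¹ ∈ Ob h hp hexp := by
      refine max_le_ob h hp hexp hO (mul_mem hx hzi) ?_
      intro h2
      apply hzO
      have h3 := mul_mem h2 hx
      rwa [mul_inv, inv_inv, mul_right_comm, inv_mul_cancel₀ hx0, one_mul] at h3
    have h2 := mul_mem h1 hz
    rwa [inv_mul_cancel_right₀ hz0] at h2
  have h0 : (u : F) ≠ 0 := u.ne_zero
  exact (cls h hp hexp rfl).2 (key _ hu1 hu2 h0)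
    (key _ hu2 (by rwa [inv_inv]) (inv_ne_zero h0))

end

end Pool.Agent.V7H79.EW
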