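import Mathlib
import Pool.Agent.V7H42.ET.Rng
import Pool.Agent.V7H79.EW.Ring
import Pool.Agent.V7H79.EW.Last

set_option autoImplicit false

/-! The integral closure `O'` of the ring `R` of a rigid class `b`: `D p O' ⊆ R` with
`D = ∏ (u^(p-1) - u^k)`, so `1 + D p u O' ⊆ T`. -/

namespace Pool.Agent.V7H79.EW

open Pool.Agent.Y920.EP
open Pool.Agent.V7H42.ET (Sm XX sm_mul sm_or sm_excl sum2 xx_inv)

section

variable {F : Type} [Field F] {A : Type} [CommGroup A] {φ : Fˣ →* A} {b : A} {p : ℕ}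

/-- the set of exponents -/
def ex (p : ℕ) : Finset ℕ := (Finset.range (p + 1)).erase (p - 1)

/-- the factor -/
def Dd {F : Type} [Field F] (p : ℕ) (u : F) : F := ∏ k ∈ ex p, (u ^ (p - 1) - u ^ k)

/-- interpolation -/
lemma interp {F : Type} [Field F] {R : Subring F} {p : ℕ} (hp : 1 ≤ p) {u z : F} (hu : u ∈ R)
    (hz : ∀ i : ℕ, (u ^ i + z) ^ p ∈ R) : Dd p u * (p * z) ∈ R := by
  classical
  obtain ⟨Q, hQ⟩ : ∃ Q : Polynomial R, Q = ∏ k ∈ ex p,
    (Polynomial.X - Polynomial.C (⟨u ^ k, pow_mem hu k⟩ : R)) := ⟨_, rfl⟩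
  obtain ⟨q, hq⟩ : ∃ q : Polynomial F, q = Q.map R.subtype := ⟨_, rfl⟩
  have hqc : ∀ i, q.coeff i ∈ R := by
    intro i
    rw [hq, Polynomial.coeff_map]
    exact (Q.coeff i).2
  have hqe : ∀ x : F, q.eval x = ∏ k ∈ ex p, (x - u ^ k) := by
    intro x
    rw [hq, hQ, Polynomial.map_prod, Polynomial.eval_prod]
    refine Finset.prod_congr rfl fun k _ => ?_
    rw [Polynomial.map_sub, Polynomial.map_X, Polynomial.map_C, Polynomial.eval_sub,
      Polynomial.eval_X, Polynomial.eval_C]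
    rfl
  have h1 : ∑ i ∈ Finset.range (q.natDegree + 1), q.coeff i * (u ^ i + z) ^ p ∈ R :=
    sum_mem fun i _ => mul_mem (hqc i) (hz i)
  have h2 : ∑ i ∈ Finset.range (q.natDegree + 1), q.coeff i * (u ^ i + z) ^ p =
      Dd p u * (p * z) := by
    have h3 : ∀ i ∈ Finset.range (q.natDegree + 1), q.coeff i * (u ^ i + z) ^ p =
        ∑ k ∈ Finset.range (p + 1), q.coeff i * (u ^ k) ^ i * (z ^ (p - k) * (p.choose k)) := by
      intro i _
      rw [add_pow, Finset.mul_sum]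
      refine Finset.sum_congr rfl fun k _ => ?_
      rw [← pow_mul, ← pow_mul, mul_comm i k]
      ring
    rw [Finset.sum_congr rfl h3, Finset.sum_comm]
    have h4 : ∀ k ∈ Finset.range (p + 1),
        ∑ i ∈ Finset.range (q.natDegree + 1), q.coeff i * (u ^ k) ^ i *
          (z ^ (p - k) * (p.choose k)) = q.eval (u ^ k) * (z ^ (p - k) * (p.choose k)) := by
      intro k _
      rw [Polynomial.eval_eq_sum_range, Finset.sum_mul]
    rw [Finset.sum_congr rfl h4, Finset.sum_eq_single (p - 1)]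
    · rw [hqe, Dd]
      obtain ⟨n, rfl⟩ := Nat.exists_eq_add_of_le' hp
      rw [Nat.add_sub_cancel, Nat.add_sub_cancel_left, pow_one, Nat.choose_succ_self_right]
      ring
    · intro k hk hk2
      have h5 : ∏ j ∈ ex p, (u ^ k - u ^ j) = 0 :=
        Finset.prod_eq_zero (i := k) (Finset.mem_erase.2 ⟨hk2, hk⟩) (sub_self _)
      rw [hqe, h5, zero_mul]
    · intro h5
      exact absurd (Finset.mem_range.2 (by omega)) h5
  rwa [h2] at h1

variable (h : Rg φ b) (hp : 1 ≤ p) (hexp : ∀ a : A, a ^ p = 1)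

include h hp hexp in
lemma pow_mem_R {z : F} (hz : z ∈ Ob h hp hexp) : z ^ p ∈ Rb φ b := by
  by_cases h0 : z = 0
  · rw [h0, zero_pow (by omega)]
    exact zero_mem _
  obtain ⟨y, rfl⟩ : ∃ y : Fˣ, (y : F) = z := ⟨Units.mk0 _ h0, rfl⟩
  have h1 := t_mem_R h hp hexp (y := y ^ p) (by rw [map_pow, hexp])
    (by rw [Units.val_pow_eq_pow_val]; exact pow_mem hz p)
  rwa [Units.val_pow_eq_pow_val] at h1

/-- the conductor -/
lemma cond {u z : F} (hu : u ∈ Rb φ b) (hz : z ∈ Ob h hp hexp) : Dd p u * (p * z) ∈ Rb φ b :=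
  interp hp hu fun i => pow_mem_R h hp hexp (add_mem (pow_mem (r_le h hp hexp hu) i) hz)

/-- `1 + D p u O' ⊆ T` -/
lemma one_add_cond {u : Fˣ} (hu : φ u = b) (su : Sm φ u) {z : F} (hz : z ∈ Ob h hp hexp) :
    ∃ t : Fˣ, φ t = 1 ∧ (t : F) = 1 + Dd p (u : F) * p * u * z := by
  have h1 := cond h hp hexp (small_mem_R h hu su) hz
  have h2 := h1 _ (small_mem_j hu su)
  obtain ⟨y', hy', e⟩ := add_j h h2 1 ub_one
  refine ⟨y', hy'.1, ?_⟩
  rw [e, Units.val_one]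
  ring

include h hp hexp in
/-- small elements exist -/
lemma small_ex (hsurj : Function.Surjective φ) : ∃ u : Fˣ, φ u = b ∧ Sm φ u := by
  obtain ⟨w, hw⟩ := hsurj b
  rcases (Ob h hp hexp).mem_or_inv_mem (w : F) with h1 | h1
  · exact ⟨w, hw, (cls h hp hexp hw).1.1 h1⟩
  · obtain ⟨n, hn⟩ := Nat.exists_eq_add_of_le' hp
    have e : φ ((w⁻¹) ^ n) = b := by
      have h2 := hexp (φ w)
      rw [hn, pow_succ] at h2
      rw [map_pow, map_inv, inv_pow, inv_eq_of_mul_eq_one_right h2, hw]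
    refine ⟨(w⁻¹) ^ n, e, (cls h hp hexp e).1.1 ?_⟩
    rw [Units.val_pow_eq_pow_val, Units.val_inv_eq_inv_val]
    exact pow_mem h1 n

lemma val_lt {u : Fˣ} (hu : φ u = b) (su : Sm φ u) : (Ob h hp hexp).valuation (u : F) < 1 := by
  have h1 := r_le h hp hexp (small_mem_R h hu su)
  rw [← ValuationSubring.valuation_le_one_iff] at h1
  exact lt_of_le_of_ne h1 (val_ne h hp hexp hu)

/-- differences of powers -/
lemma pow_sub {O' : ValuationSubring F} {u : F} (hu : O'.valuation u < 1) {i k : ℕ}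
    (hik : i ≠ k) : ∃ n : ℕ, ∃ y : F, O'.valuation y = 1 ∧ u ^ i - u ^ k = u ^ n * y := by
  have key : ∀ n m : ℕ, n < m → O'.valuation (1 - u ^ (m - n)) = 1 := by
    intro n m hnm
    rw [sub_eq_add_neg]
    refine Valuation.map_one_add_of_lt _ ?_
    rw [Valuation.map_neg, map_pow]
    exact pow_lt_one₀ zero_le hu (by omega)
  rcases lt_or_gt_of_ne hik with h1 | h1
  · refine ⟨i, 1 - u ^ (k - i), key i k h1, ?_⟩
    rw [mul_sub, mul_one, ← pow_add, Nat.add_sub_cancel' h1.le]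
  · refine ⟨k, -(1 - u ^ (i - k)), ?_, ?_⟩
    · rw [Valuation.map_neg]
      exact key k i h1
    · rw [mul_neg, mul_sub, mul_one, ← pow_add, Nat.add_sub_cancel' h1.le]
      ring

lemma dd_ne {O' : ValuationSubring F} {u : F} (hu : O'.valuation u < 1) (hu0 : u ≠ 0) :
    Dd p u ≠ 0 := by
  rw [Dd, Finset.prod_ne_zero_iff]
  intro k hk
  obtain ⟨n, y, hy, e⟩ := pow_sub hu (Finset.ne_of_mem_erase hk).symm
  rw [e]
  refine mul_ne_zero (pow_ne_zero _ hu0) ?_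
  rintro rfl
  rw [map_zero] at hy
  exact zero_ne_one hy

lemma ii_prod {T : Subgroup Fˣ} {O' : ValuationSubring F} (hD : Dt p T O') (s : Finset ℕ)
    (f : ℕ → F) (hf : ∏ k ∈ s, f k ∈ II T O') : ∃ k ∈ s, f k ∈ II T O' := by
  classical
  induction s using Finset.induction_on with
  | empty =>
    rw [Finset.prod_empty] at hf
    exact absurd hf ii_one
  | insert a s ha ih =>
    rw [Finset.prod_insert ha] at hf
    rcases ii_prime hD hf with h1 | h1
    · exact ⟨a, Finset.mem_insert_self _ _, h1⟩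
    · obtain ⟨k, hk, h2⟩ := ih h1
      exact ⟨k, Finset.mem_insert_of_mem hk, h2⟩

lemma dd_ii {T : Subgroup Fˣ} {O' : ValuationSubring F} (hD : Dt p T O') {u : F}
    (hu : O'.valuation u < 1) (h1 : Dd p u ∈ II T O') : u ∈ II T O' := by
  obtain ⟨k, hk, h2⟩ := ii_prod hD _ _ h1
  obtain ⟨n, y, hy, e⟩ := pow_sub hu (Finset.ne_of_mem_erase hk).symm
  rw [e] at h2
  rcases ii_prime hD h2 with h3 | h3
  · exact ii_pow hD n h3
  · have h4 := ii_lt h3
    rw [hy] at h4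
    exact absurd h4 (lt_irrefl _)

/-- small elements of the class are in the ideal -/
lemma small_ii {T : Subgroup Fˣ} (hker : ∀ y : Fˣ, φ y = 1 ↔ y ∈ T)
    (hD : Dt p T (Ob h hp hexp)) {u : Fˣ} (hu : φ u = b) (su : Sm φ u) :
    (u : F) ∈ II T (Ob h hp hexp) := by
  have h1 : Dd p (u : F) * p * u ∈ II T (Ob h hp hexp) := by
    intro z hz
    obtain ⟨t, ht, e⟩ := one_add_cond h hp hexp hu su hz
    exact ⟨t, (hker t).1 ht, e⟩
  rcases ii_prime hD h1 with h2 | h2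
  · rcases ii_prime hD h2 with h3 | h3
    · exact dd_ii hD (val_lt h hp hexp hu su) h3
    · exact absurd hD.pO (ii_inv h3 hD.p0)
  · exact h2

/-- the localisation has no units in the class -/
lemma no_units {T : Subgroup Fˣ} (hker : ∀ y : Fˣ, φ y = 1 ↔ y ∈ T)
    (hD : Dt p T (Ob h hp hexp)) {w : Fˣ} (hw : φ w = b) (h1 : (w : F) ∈ OI hD)
    (h2 : (w : F)⁻¹ ∈ OI hD) : False := by
  have h3 := ((mem_oi hD).1 h1).resolve_left w.ne_zero
  have h4 := ((mem_oi hD).1 h2).resolve_left (inv_ne_zero w.ne_zero)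
  rw [inv_inv] at h4
  rcases (Ob h hp hexp).mem_or_inv_mem (w : F) with h5 | h5
  · exact h4 (small_ii h hp hexp hker hD hw ((cls h hp hexp hw).1.1 h5))
  · obtain ⟨n, hn⟩ := Nat.exists_eq_add_of_le' hp
    have e : φ ((w⁻¹) ^ n) = b := by
      have h2 := hexp (φ w)
      rw [hn, pow_succ] at h2
      rw [map_pow, map_inv, inv_pow, inv_eq_of_mul_eq_one_right h2, hw]
    have h6 : (((w⁻¹) ^ n : Fˣ) : F) ∈ Ob h hp hexp := by
      rw [Units.val_pow_eq_pow_val, Units.val_inv_eq_inv_val]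
      exact pow_mem h5 n
    have h7 := small_ii h hp hexp hker hD e ((cls h hp hexp e).1.1 h6)
    rw [Units.val_pow_eq_pow_val, Units.val_inv_eq_inv_val] at h7
    exact h3 (ii_pow hD n h7)

end

section

variable {F : Type} [Field F] {p : ℕ}

/-- one rigid class of `F*/T` -/
theorem one_rigid (hm : 1 ≤ p) {T : Subgroup Fˣ} (hT : pwG F p ≤ T) (hneg : (-1 : Fˣ) ∈ T)
    {c : Fˣ ⧸ T} (hc : c ∉ Pool.Agent.V7H42.ET.nonrigidC T) (hc2 : c * c ≠ 1) :
    ∃ O : ValuationSubring F, (∀ u ∈ O.unitGroup, ((u : Fˣ) : Fˣ ⧸ T) ≠ c) ∧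
      (∀ w : Fˣ, (w : Fˣ ⧸ T) = c → ((w : F) ∈ O ↔ ∃ t ∈ T, ((t : Fˣ) : F) = 1 + w)) ∧
      ((p : F) ≠ 0 → ∃ x : F, x ≠ 0 ∧ ∀ z ∈ O, ∃ t ∈ T, ((t : Fˣ) : F) = 1 + x * z) ∧
      (T = pwG F p → p.Prime → (∃ ζ : F, IsPrimitiveRoot ζ p) → ∃ O₂ : ValuationSubring F,
        O ≤ O₂ ∧ (∀ y : F, y ∈ O₂ → y⁻¹ ∉ O₂ → ∃ t ∈ T, ((t : Fˣ) : F) = 1 + y) ∧
        (p : F)⁻¹ ∈ O₂ ∧ ∀ u ∈ O₂.unitGroup, ((u : Fˣ) : Fˣ ⧸ T) ≠ c) := by
  have hexp : ∀ a : Fˣ ⧸ T, a ^ p = 1 := by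
    intro a
    obtain ⟨y, rfl⟩ := QuotientGroup.mk'_surjective T a
    rw [← map_pow, QuotientGroup.mk'_apply, QuotientGroup.eq_one_iff]
    exact hT ⟨y, rfl⟩
  have hker : ∀ y : Fˣ, QuotientGroup.mk' T y = 1 ↔ y ∈ T := by
    intro y
    rw [QuotientGroup.mk'_apply, QuotientGroup.eq_one_iff]
  have h : Rg (A := Fˣ ⧸ T) (QuotientGroup.mk' T) c := by
    refine ⟨(hker _).2 hneg, ?_, hc2⟩
    rintro (h1 | h1)
    · apply hc2
      rw [h1]
      exact one_mul (1 : Fˣ ⧸ T)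
    · rw [Pool.Agent.V7H42.ET.nonrigid_eq] at h1
      exact hc h1
  refine ⟨Ob h hm hexp, ?_, ?_, ?_, ?_⟩
  · intro u hu e
    have h1 := (cls h hm hexp (w := u) e).2
    have h2 : ((u : Fˣ) : F) ∈ Ob h hm hexp := by
      rw [← ValuationSubring.valuation_le_one_iff]
      exact le_of_eq hu
    refine h1 h2 ?_
    have h3 : u⁻¹ ∈ (Ob h hm hexp).unitGroup := inv_mem hu
    rw [← Units.val_inv_eq_inv_val, ← ValuationSubring.valuation_le_one_iff]
    exact le_of_eq h3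
  · intro w e
    rw [(cls h hm hexp (w := w) e).1]
    constructor
    · rintro ⟨z, hz, e2⟩
      refine ⟨z, ?_, ?_⟩
      · rwa [map_one, hker] at e2
      · rw [hz, Units.val_one]
    · rintro ⟨t, ht, e2⟩
      refine ⟨t, ?_, ?_⟩
      · rw [e2, Units.val_one]
      · rw [map_one, hker]
        exact ht
  · intro hp0
    obtain ⟨u, hu, su⟩ := small_ex h hm hexp (QuotientGroup.mk'_surjective T)
    refine ⟨Dd p (u : F) * p * u, mul_ne_zero (mul_ne_zero
      (dd_ne (val_lt h hm hexp hu su) u.ne_zero) hp0) u.ne_zero, fun z hz => ?_⟩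
    obtain ⟨t, ht, e⟩ := one_add_cond h hm hexp hu su hz
    exact ⟨t, (hker t).1 ht, e⟩
  · rintro hTdef hp ⟨ζ, hζ⟩
    have hp0 : (p : F) ≠ 0 := by
      have : NeZero p := ⟨hp.ne_zero⟩
      exact hζ.neZero'.ne
    have hTp : ∀ y : Fˣ, QuotientGroup.mk' T y = 1 → ∃ z : Fˣ, y = z ^ p := by
      intro y hy
      rw [hker, hTdef] at hy
      obtain ⟨z, hz⟩ := mem_pwG.1 hy
      exact ⟨z, hz⟩
    have hD : Dt p T (Ob h hm hexp) :=
      ⟨hm, hp0, fun z => (hker _).1 (by rw [map_pow, hexp]), p_inv h hm hexp hTp hp hζ⟩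
    refine ⟨OI hD, fun z hz => c2_of hz, ?_, c2_of hD.pO, ?_⟩
    · intro y _ hy
      obtain ⟨t, ht, e⟩ := oi_non hD hy 1 (one_mem _)
      exact ⟨t, ht, by rw [e, mul_one]⟩
    · intro u hu e
      refine no_units h hm hexp hker hD e ?_ ?_
      · rw [← ValuationSubring.valuation_le_one_iff]
        exact le_of_eq hu
      · have h3 : u⁻¹ ∈ (OI hD).unitGroup := inv_mem hu
        rw [← Units.val_inv_eq_inv_val, ← ValuationSubring.valuation_le_one_iff]
        exact le_of_eq h3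

end

end Pool.Agent.V7H79.EW
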