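import Mathlib
import Pool.Agent.V7H42.ET.Fin42
import Pool.Agent.V7H79.EU.Bas
import Pool.Agent.V7H79.EW.Cnd

set_option autoImplicit false

/-! The group of the nonrigid classes and the classes of units. -/

namespace Pool.Agent.V7H79.EW

open Pool.Agent.Y920.EP
open Pool.Agent.V7H42.ET (nonrigidC nonrigid_eq unit_of_nonrigid ring_gen gen_le)

section

variable {F : Type} [Field F] {p : ℕ}

lemma sq_ne {A : Type} [CommGroup A] (hp : p.Prime) (hp2 : p ≠ 2) (hexp : ∀ a : A, a ^ p = 1)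
    {b : A} (hb : b ≠ 1) : b * b ≠ 1 := by
  intro h
  apply hb
  obtain ⟨m, hm⟩ := hp.odd_of_ne_two hp2
  have h1 := hexp b
  rw [hm, pow_add, pow_mul, pow_two, h, one_pow, one_mul, pow_one] at h1
  exact h1

/-- classes of units -/
lemma unit_class {T : Subgroup Fˣ} {O : ValuationSubring F} {c : Fˣ ⧸ T} :
    (∃ u ∈ O.unitGroup, ((u : Fˣ) : Fˣ ⧸ T) = c) ↔
      ∃ x ∈ O.unitGroup ⊔ T, ((x : Fˣ) : Fˣ ⧸ T) = c := by
  constructor
  · rintro ⟨u, hu, e⟩
    exact ⟨u, Subgroup.mem_sup_left hu, e⟩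
  · rintro ⟨x, hx, rfl⟩
    obtain ⟨u, hu, t, ht, e⟩ := Subgroup.mem_sup.1 hx
    refine ⟨u, hu, ?_⟩
    rw [QuotientGroup.eq, ← e, inv_mul_cancel_left]
    exact ht

/-- the group generated by the nonrigid classes -/
theorem mem_closure (hp : p.Prime) (hζ : ∃ ζ : F, IsPrimitiveRoot ζ p) {T : Subgroup Fˣ}
    (hTdef : T = pwG F p) (hneg : (-1 : Fˣ) ∈ T) (c : Fˣ ⧸ T) :
    c ∈ Subgroup.closure (nonrigidC T) ↔ c = 1 ∨ c ∈ nonrigidC T := by
  constructor
  · intro hc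
    by_cases h1 : c = 1
    · exact Or.inl h1
    right
    by_cases hp2 : p = 2
    · subst hp2
      have h2 : (2 : F) ≠ 0 := by
        obtain ⟨ζ, hζ⟩ := hζ
        have := hζ.neZero'.ne
        exact_mod_cast this
      subst hTdef
      have hcl : ∀ d ∈ Subgroup.closure (nonrigidC (pwG F 2)), d = 1 ∨ d ∈ nonrigidC (pwG F 2) := by
        intro d hd
        induction hd using Subgroup.closure_induction with
        | mem x hx => exact Or.inr hx
        | one => exact Or.inl rfl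
        | mul x y _ _ hx hy =>
          rcases hx with hx | hx
          · have e : x * y = y := by
              rw [hx]
              exact one_mul y
            rw [e]
            exact hy
          rcases hy with hy | hy
          · have e : x * y = x := by
              rw [hy]
              exact mul_one x
            rw [e]
            exact Or.inr hx
          exact Pool.Agent.V7H79.EU.berman h2 hneg hx hy
        | inv x _ hx =>
          have hsq : x⁻¹ = x := by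
            obtain ⟨a, rfl⟩ := QuotientGroup.mk_surjective x
            rw [inv_eq_iff_mul_eq_one, ← QuotientGroup.mk_mul, QuotientGroup.eq_one_iff]
            exact Pool.Agent.V7H79.EU.sq_sq a
          rwa [hsq]
      exact (hcl c hc).resolve_left h1
    · by_contra hcn
      have hexp : ∀ a : Fˣ ⧸ T, a ^ p = 1 := Pool.Agent.V7H42.ET.exp_of (ge_of_eq hTdef)
      obtain ⟨_, -, -, -, h2⟩ := one_rigid hp.one_le (ge_of_eq hTdef) hneg hcn
        (sq_ne hp hp2 hexp h1)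
      obtain ⟨O₂, -, h3, -, h4⟩ := h2 hTdef hp hζ
      obtain ⟨x, rfl⟩ := QuotientGroup.mk_surjective c
      have h5 : x ∈ O₂.unitGroup ⊔ T := gen_le hneg h3 hc
      obtain ⟨u, hu, e⟩ := unit_class.2 ⟨x, h5, rfl⟩
      exact h4 u hu e
  · rintro (rfl | hc)
    · exact one_mem _
    · exact Subgroup.subset_closure hc

/-- the ring -/
theorem ring_units (hp : p.Prime) (hζ : ∃ ζ : F, IsPrimitiveRoot ζ p) {T : Subgroup Fˣ}
    (hTdef : T = pwG F p) (hneg : (-1 : Fˣ) ∈ T) (h2 : p ≠ 2 ∨ (nonrigidC T).Nonempty) :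
    ∃ O : ValuationSubring F,
      (∀ y : F, y ∈ O → y⁻¹ ∉ O → ∃ t ∈ T, ((t : Fˣ) : F) = 1 + y) ∧ (p : F)⁻¹ ∈ O ∧
      ∀ c : Fˣ ⧸ T, (∃ u ∈ O.unitGroup, ((u : Fˣ) : Fˣ ⧸ T) = c) ↔ c = 1 ∨ c ∈ nonrigidC T := by
  have hpF : (p : F) ≠ 0 := by
    obtain ⟨ζ, hζ⟩ := hζ
    have : NeZero p := ⟨hp.ne_zero⟩
    exact hζ.neZero'.ne
  obtain ⟨O, h3, h4, h5⟩ := ring_gen hp (ge_of_eq hTdef) hneg h2
  refine ⟨O, h3, h5 hTdef hpF, fun c => ?_⟩
  rw [← mem_closure hp hζ hTdef hneg c, unit_class, h4]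
  constructor
  · rintro ⟨u, hu, rfl⟩
    exact hu
  · intro hc
    obtain ⟨x, rfl⟩ := QuotientGroup.mk_surjective c
    exact ⟨x, hc, rfl⟩

/-- one rigid class: a ring with `O* T ≠ F*` -/
theorem ring_one' (hp : p.Prime) (hζ : ∃ ζ : F, IsPrimitiveRoot ζ p) {T : Subgroup Fˣ}
    (hTdef : T = pwG F p) (hneg : (-1 : Fˣ) ∈ T)
    (hex : ∃ c : Fˣ ⧸ T, c ≠ 1 ∧ c ∉ nonrigidC T) (hidx : T.index ≠ 2) :
    ∃ O : ValuationSubring F,
      (∀ y : F, y ∈ O → y⁻¹ ∉ O → ∃ t ∈ T, ((t : Fˣ) : F) = 1 + y) ∧ (p : F)⁻¹ ∈ O ∧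
      O.unitGroup ⊔ T ≠ ⊤ := by
  have hpF : (p : F) ≠ 0 := by
    obtain ⟨ζ, hζ⟩ := hζ
    have : NeZero p := ⟨hp.ne_zero⟩
    exact hζ.neZero'.ne
  obtain ⟨c, hc1, hc2⟩ := hex
  by_cases h2 : p ≠ 2 ∨ (nonrigidC T).Nonempty
  · obtain ⟨O, h3, h4, h5⟩ := ring_units hp hζ hTdef hneg h2
    refine ⟨O, h3, h4, fun h6 => ?_⟩
    obtain ⟨x, rfl⟩ := QuotientGroup.mk_surjective c
    have h7 : x ∈ O.unitGroup ⊔ T := by
      rw [h6]
      exact Subgroup.mem_top x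
    rcases (h5 (x : Fˣ ⧸ T)).1 (unit_class.2 ⟨x, h7, rfl⟩) with h8 | h8
    · exact hc1 h8
    · exact hc2 h8
  · have h3 := h2
    push Not at h3
    obtain ⟨h4, h5⟩ := h3
    obtain ⟨O, h6, h7, h8, h9⟩ := Pool.Agent.V7H42.ET.ring_empty hp (ge_of_eq hTdef) hneg h5
    refine ⟨O, h6, h9 hTdef hpF, fun h10 => ?_⟩
    rw [h10, Subgroup.relIndex_top_right] at h7 h8
    rw [if_pos h4] at h8
    have h11 : T.index = 1 := by omega
    rw [Subgroup.index_eq_one] at h11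
    apply hc1
    obtain ⟨x, rfl⟩ := QuotientGroup.mk_surjective c
    rw [QuotientGroup.eq_one_iff, h11]
    exact Subgroup.mem_top x

/-- the same, with a superfluous assumption -/
theorem ring_one (hp : p.Prime) (hζ : ∃ ζ : F, IsPrimitiveRoot ζ p) {T : Subgroup Fˣ}
    (hTdef : T = pwG F p) (hneg : (-1 : Fˣ) ∈ T) (_hfin : (nonrigidC T).Finite)
    (hex : ∃ c : Fˣ ⧸ T, c ≠ 1 ∧ c ∉ nonrigidC T) (hidx : T.index ≠ 2) :
    ∃ O : ValuationSubring F,
      (∀ y : F, y ∈ O → y⁻¹ ∉ O → ∃ t ∈ T, ((t : Fˣ) : F) = 1 + y) ∧ (p : F)⁻¹ ∈ O ∧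
      O.unitGroup ⊔ T ≠ ⊤ :=
  ring_one' hp hζ hTdef hneg hex hidx

/-- products of nonrigid classes -/
theorem mul_nonrigid (hp : p.Prime) (hζ : ∃ ζ : F, IsPrimitiveRoot ζ p) {T : Subgroup Fˣ}
    (hTdef : T = pwG F p) (hneg : (-1 : Fˣ) ∈ T) {a b : Fˣ ⧸ T}
    (ha : a ∈ nonrigidC T) (hb : b ∈ nonrigidC T) : a * b = 1 ∨ a * b ∈ nonrigidC T :=
  (mem_closure hp hζ hTdef hneg (a * b)).1
    (mul_mem (Subgroup.subset_closure ha) (Subgroup.subset_closure hb))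

end

end Pool.Agent.V7H79.EW
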