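import Mathlib
import Pool.Agent.Y349.EP.NG
import Pool.Agent.V7H79.EU.Fin

set_option autoImplicit false

/-! Small norm groups, all primes (`p = 2`: `-1` is a square). -/

namespace Pool.Agent.V7H79.EW

open Polynomial Pool.Agent.Y920.EP
open Pool.Agent.V7H42.ET (nonrigidC nonrigid_eq)

section

variable {F : Type} [Field F]

lemma nmG_of (hi : (-1 : Fˣ) ∈ pwG F 2) {a t v : Fˣ} (ht : t ∈ pwG F 2)
    (hv : (v : F) = 1 + a * t) : v ∈ nmG 2 a := by
  obtain ⟨i, hi⟩ := mem_pwG.1 hi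
  obtain ⟨s, hs⟩ := mem_pwG.1 ht
  have hu : ((-(a * t) : Fˣ) : F) = (a : F) * ((i * s : Fˣ) : F) ^ 2 := by
    rw [Units.val_mul, mul_pow, ← Units.val_pow_eq_pow_val, ← Units.val_pow_eq_pow_val, ← hi, ← hs,
      Units.val_neg, Units.val_neg, Units.val_mul, Units.val_one]
    ring
  refine Pool.Agent.Y349.EP.nmG_le a (i * s) (-(a * t)) hu ?_
  obtain ⟨u, hud⟩ : ∃ u : Fˣ, u = -(a * t) := ⟨_, rfl⟩
  rw [← hud]
  have hvu : (v : F) = 1 - u := by
    rw [hv, hud, Units.val_neg, Units.val_mul]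
    ring
  have hroot := Pool.Agent.Y349.EP.root_pow (p := 2) (u : F)
  have h1 : (algebraMap F (AdjoinRoot (X ^ 2 - C (u : F))) 1 - AdjoinRoot.root _) ∣
      algebraMap F (AdjoinRoot (X ^ 2 - C (u : F))) v := by
    refine ⟨1 + AdjoinRoot.root _, ?_⟩
    rw [hvu, map_sub, map_one, ← hroot]
    ring
  have h3 : IsUnit (algebraMap F (AdjoinRoot (X ^ 2 - C (u : F))) 1 - AdjoinRoot.root _) :=
    isUnit_of_dvd_unit h1 (v.isUnit.map _)
  refine ⟨h3.unit, ?_⟩
  apply Units.ext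
  rw [hvu]
  have h4 := Pool.Agent.Y349.EP.norm_sub_root (p := 2) (by norm_num) (u : F) 1
  rw [one_pow] at h4
  exact h4

lemma neg_mem_nmG (a : Fˣ) : -a ∈ nmG 2 a := by
  have hroot := Pool.Agent.Y349.EP.root_pow (p := 2) (a : F)
  have h1 : (algebraMap F (AdjoinRoot (X ^ 2 - C (a : F))) 0 - AdjoinRoot.root _) ∣
      algebraMap F (AdjoinRoot (X ^ 2 - C (a : F))) a := by
    refine ⟨-AdjoinRoot.root _, ?_⟩
    rw [map_zero, ← hroot]
    ring
  have h3 : IsUnit (algebraMap F (AdjoinRoot (X ^ 2 - C (a : F))) 0 - AdjoinRoot.root _) :=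
    isUnit_of_dvd_unit h1 (a.isUnit.map _)
  refine ⟨h3.unit, ?_⟩
  apply Units.ext
  rw [Units.val_neg]
  have h4 := Pool.Agent.Y349.EP.norm_sub_root (p := 2) (by norm_num) (a : F) 0
  rw [zero_pow (by norm_num), zero_sub] at h4
  exact h4

/-- small norm groups, `p = 2` -/
theorem nonrigid_norm_two {T : Subgroup Fˣ} (hTdef : T = pwG F 2) (hneg : (-1 : Fˣ) ∈ T) (N : ℕ)
    (hN : ∀ a : Fˣ, a ∉ T → T.relIndex (nmG 2 a) ≠ 0 ∧ T.relIndex (nmG 2 a) ≤ N) :
    (nonrigidC T).Finite ∧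
      (nonrigidC T).ncard ≤ max (4 * ((N - 1) / (2 - 1) * N) + 1) 2 ∧ (T ≠ ⊤ → 2 ≤ N) := by
  have hrel : ∀ a : Fˣ, T.relIndex (nmG 2 a) =
      Nat.card ((nmG 2 a).map (QuotientGroup.mk' T)) := by
    intro a
    have h1 := Subgroup.relIndex_ker (QuotientGroup.mk' T) (K := nmG 2 a)
    rwa [QuotientGroup.ker_mk'] at h1
  have hTtop : T ≠ ⊤ → 2 ≤ N := by
    intro hT
    obtain ⟨a, ha⟩ : ∃ a : Fˣ, a ∉ T := by
      by_contra hc
      push Not at hc
      exact hT (eq_top_iff.2 fun a _ => hc a)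
    obtain ⟨h1, h2⟩ := hN a ha
    rw [hrel] at h1 h2
    have h3 : Finite ((nmG 2 a).map (QuotientGroup.mk' T)) := Nat.finite_of_card_ne_zero h1
    have h4 : Nontrivial ((nmG 2 a).map (QuotientGroup.mk' T)) := by
      refine ⟨⟨QuotientGroup.mk' T (-a), -a, neg_mem_nmG a, rfl⟩, 1, ?_⟩
      intro h5
      have h6 : QuotientGroup.mk' T (-a) = 1 := congrArg Subtype.val h5
      rw [QuotientGroup.mk'_apply, QuotientGroup.eq_one_iff, ← neg_one_mul] at h6
      exact ha ((Subgroup.mul_mem_cancel_left _ hneg).1 h6)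
    have h5 := Finite.one_lt_card (α := ((nmG 2 a).map (QuotientGroup.mk' T)))
    omega
  by_cases hT : T = ⊤
  · have he : nonrigidC T = ∅ := by
      rw [Set.eq_empty_iff_forall_notMem]
      rintro c ⟨r, s, -, -, h, -⟩
      exact h (by rw [hT]; exact Subgroup.mem_top r)
    rw [he]
    exact ⟨Set.finite_empty, by rw [Set.ncard_empty]; omega, hTtop⟩
  · have hN2 := hTtop hT
    have h1 := Pool.Agent.V7H79.EU.nonrigid_sum (m := 2) (by norm_num) T (ge_of_eq hTdef) hneg N hN2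
      (by
        intro a ha
        obtain ⟨h1, h2⟩ := hN a ha
        rw [hrel] at h1 h2
        have h3 : Finite ((nmG 2 a).map (QuotientGroup.mk' T)) := Nat.finite_of_card_ne_zero h1
        have hsub : Pool.Agent.V7H79.EU.sumC T a ⊆
            (((nmG 2 a).map (QuotientGroup.mk' T) : Subgroup (Fˣ ⧸ T)) : Set (Fˣ ⧸ T)) := by
          rintro _ ⟨t, ht, v, hv, rfl⟩
          refine ⟨v, ?_, rfl⟩
          rw [hTdef] at ht hneg
          exact nmG_of hneg ht hv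
        have hf : (((nmG 2 a).map (QuotientGroup.mk' T) : Subgroup (Fˣ ⧸ T)) :
            Set (Fˣ ⧸ T)).Finite := Set.toFinite _
        exact ⟨hf.subset hsub, (Set.ncard_le_ncard hsub hf).trans h2⟩)
    refine ⟨h1.1, h1.2.trans (le_of_eq ?_), hTtop⟩
    congr 1
    obtain ⟨q, rfl⟩ := Nat.exists_eq_add_of_le hN2
    have h3 : 2 + q - 1 = q + 1 := by omega
    have h4 : 2 * (2 + q) - 1 = 2 * q + 3 := by omega
    rw [h3, h4, Nat.div_one]
    ring

/-- small norm groups, all primes -/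
theorem nonrigid_norm_all {p : ℕ} (hp : p.Prime) {T : Subgroup Fˣ} (hTdef : T = pwG F p)
    (hneg : (-1 : Fˣ) ∈ T) (hζ : ∃ ζ : F, IsPrimitiveRoot ζ p) (N : ℕ)
    (hN : ∀ a : Fˣ, a ∉ T → T.relIndex (nmG p a) ≠ 0 ∧ T.relIndex (nmG p a) ≤ N) :
    (nonrigidC T).Finite ∧
      (nonrigidC T).ncard ≤ max (4 * ((N - 1) / (p - 1) * N) + 1) p ∧ (T ≠ ⊤ → p ≤ N) := by
  by_cases hp2 : p = 2
  · subst hp2
    exact nonrigid_norm_two hTdef hneg N hN
  · subst hTdef
    exact Pool.Agent.V7H79.EU.nonrigid_norm hp hp2 hζ N hN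

/-- the constant -/
def cst (p : ℕ) : ℕ := if p = 2 then 4 else if p = 3 then 2 else 1

theorem cst_arith {p N x : ℕ} (hp : p.Prime) (hpN : p ≤ N)
    (hx : x ≤ max (4 * ((N - 1) / (p - 1) * N) + 1) p) : x + 1 < cst p * N ^ 2 := by
  have hp2 := hp.two_le
  obtain ⟨D, hD⟩ : ∃ D, D = (N - 1) / (p - 1) := ⟨_, rfl⟩
  have hD1 : D * (p - 1) ≤ N - 1 := by rw [hD]; exact Nat.div_mul_le_self _ _
  have hD2 : 1 ≤ D := by
    rw [hD, Nat.le_div_iff_mul_le (by omega)]
    omega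
  rw [← hD] at hx
  have hx2 : x ≤ 4 * (D * N) + 1 := by
    have h1 : 1 * p ≤ D * N := Nat.mul_le_mul hD2 hpN
    have h2 : max (4 * (D * N) + 1) p = 4 * (D * N) + 1 := max_eq_left (by omega)
    rwa [h2] at hx
  obtain ⟨n, hn⟩ : ∃ n, N = n + 1 := ⟨N - 1, by omega⟩
  rw [cst]
  have hn1 : N - 1 = n := by omega
  rw [hn1] at hD1
  by_cases h2 : p = 2
  · rw [if_pos h2]
    rw [h2] at hD1 hpN
    have h3 : D ≤ n := by omega
    have h4 : D * N ≤ n * N := Nat.mul_le_mul_right _ h3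
    rw [hn] at h4 hx2 ⊢
    nlinarith
  · rw [if_neg h2]
    by_cases h3 : p = 3
    · rw [if_pos h3]
      rw [h3] at hD1 hpN
      have h3 : 2 * D ≤ n := by omega
      have h4 : 2 * D * N ≤ n * N := Nat.mul_le_mul_right _ h3
      rw [hn] at h4 hx2 ⊢
      nlinarith
    · rw [if_neg h3]
      have h5 : 5 ≤ p := by
        by_contra hc
        push Not at hc
        interval_cases p
        · exact h2 rfl
        · exact h3 rfl
        · exact absurd hp (by norm_num)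
      have h6 : D * 4 ≤ D * (p - 1) := Nat.mul_le_mul_left _ (by omega)
      have h7 : 4 * D ≤ n := by omega
      have h8 : 4 * D * N ≤ n * N := Nat.mul_le_mul_right _ h7
      rw [hn] at h8 hx2 ⊢
      nlinarith

end

end Pool.Agent.V7H79.EW
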